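import Pool.Agent.TH528.GN.Resolvent

/-!
# Factorization norm and complete bipartite subgraphs: the core inequality
-/

set_option autoImplicit false

namespace Pool.Agent.TH528.GN

open Matrix Finset
open scoped Nat

section duality

variable {I J L : Type*} [Fintype I] [Fintype J] [Fintype L]

/-- If `N` has operator norm at most `√C`, then `N`, scaled by `x` and `y`, pairs with every matrix `⟨u i, v j⟩` to at most
`√C √(∑ x² |u|²) √(∑ y² |v|²)`. -/
theorem duality (N : Matrix I J ℝ) (C : ℝ) (hC : ∀ z : J → ℝ, ∑ i, (N *ᵥ z) i ^ 2 ≤ C * ∑ j, z j ^ 2)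
    (u : I → L → ℝ) (v : J → L → ℝ) (x : I → ℝ) (y : J → ℝ) :
    (∑ i, ∑ j, x i * y j * N i j * ∑ l, u i l * v j l) ^ 2 ≤
      C * (∑ i, x i ^ 2 * ∑ l, u i l ^ 2) * (∑ j, y j ^ 2 * ∑ l, v j l ^ 2) := by
  classical
  have e1 : (∑ i, ∑ j, x i * y j * N i j * ∑ l, u i l * v j l) =
      ∑ p : L × I, (x p.2 * u p.2 p.1) * (N *ᵥ (fun j => y j * v j p.1)) p.2 := by
    rw [Fintype.sum_prod_type_right]
    apply sum_congr rfl
    intro i _
    have : ∀ l, (x i * u i l) * (N *ᵥ (fun j => y j * v j l)) i =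
        ∑ j, x i * y j * N i j * (u i l * v j l) := by
      intro l
      rw [mulVec, dotProduct, mul_sum]
      apply sum_congr rfl
      intro j _
      ring
    simp_rw [this]
    rw [sum_comm]
    apply sum_congr rfl
    intro j _
    rw [mul_sum]
  rw [e1]
  refine (sum_mul_sq_le_sq_mul_sq _ _ _).trans ?_
  have e2 : ∑ p : L × I, (x p.2 * u p.2 p.1) ^ 2 = ∑ i, x i ^ 2 * ∑ l, u i l ^ 2 := by
    rw [Fintype.sum_prod_type_right]
    apply sum_congr rfl
    intro i _
    rw [mul_sum]
    apply sum_congr rfl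
    intro l _
    ring
  have e3 : ∑ p : L × I, ((N *ᵥ (fun j => y j * v j p.1)) p.2) ^ 2 ≤ C * ∑ j, y j ^ 2 * ∑ l, v j l ^ 2 := by
    rw [Fintype.sum_prod_type]
    calc ∑ l, ∑ i, ((N *ᵥ (fun j => y j * v j l)) i) ^ 2 ≤ ∑ l, C * ∑ j, (y j * v j l) ^ 2 :=
          sum_le_sum fun l _ => hC _
      _ = C * ∑ j, y j ^ 2 * ∑ l, v j l ^ 2 := by
          rw [← mul_sum, sum_comm]
          congr 1
          apply sum_congr rfl
          intro j _
          rw [mul_sum]
          apply sum_congr rfl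
          intro l _
          ring
  rw [e2]
  calc (∑ i, x i ^ 2 * ∑ l, u i l ^ 2) * ∑ p : L × I, ((N *ᵥ (fun j => y j * v j p.1)) p.2) ^ 2
      ≤ (∑ i, x i ^ 2 * ∑ l, u i l ^ 2) * (C * ∑ j, y j ^ 2 * ∑ l, v j l ^ 2) := by
        apply mul_le_mul_of_nonneg_left e3
        exact sum_nonneg fun i _ => mul_nonneg (sq_nonneg _) (sum_nonneg fun l _ => sq_nonneg _)
    _ = _ := by ring

end duality

section counting

variable {V : Type*} [Fintype V] [DecidableEq V] (G : SimpleGraph V) [DecidableRel G.Adj]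

/-- The number of common neighbours. -/
def cn (l j : V) : ℕ := (G.neighborFinset l ∩ G.neighborFinset j).card

theorem sum_choose_le (s t : ℕ)
    (h : ∀ S : Finset V, S.card = s → (univ.filter (fun j => ∀ i ∈ S, G.Adj i j)).card ≤ t) (l : V) :
    ∑ j, (cn G l j).choose s ≤ t * (G.degree l).choose s := by
  have e1 : ∀ j, (cn G l j).choose s =
      ∑ S ∈ powersetCard s (G.neighborFinset l), if (∀ i ∈ S, G.Adj i j) then 1 else 0 := by
    intro j
    rw [cn, ← card_powersetCard, sum_boole, Nat.cast_id]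
    congr 1
    ext S
    rw [mem_powersetCard, mem_filter, mem_powersetCard]
    constructor
    · rintro ⟨h1, h2⟩
      refine ⟨⟨h1.trans inter_subset_left, h2⟩, fun i hi => ?_⟩
      have := inter_subset_right (h1 hi)
      rw [SimpleGraph.mem_neighborFinset] at this
      exact this.symm
    · rintro ⟨⟨h1, h2⟩, h3⟩
      refine ⟨fun i hi => mem_inter.2 ⟨h1 hi, ?_⟩, h2⟩
      rw [SimpleGraph.mem_neighborFinset]
      exact (h3 i hi).symm
  simp_rw [e1]
  rw [sum_comm]
  calc ∑ S ∈ powersetCard s (G.neighborFinset l), ∑ j, (if (∀ i ∈ S, G.Adj i j) then 1 else 0)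
      ≤ ∑ S ∈ powersetCard s (G.neighborFinset l), t := by
        apply sum_le_sum
        intro S hS
        rw [sum_boole, Nat.cast_id]
        exact h S (mem_powersetCard.1 hS).2
    _ = t * (G.degree l).choose s := by
        rw [sum_const, card_powersetCard, SimpleGraph.card_neighborFinset_eq_degree, smul_eq_mul, mul_comm]

/-- `c ^ s ≤ s ^ s s! (c choose s)` for `c ≥ s`. -/
theorem pow_le_choose' (s c : ℕ) (hc : s ≤ c) : ((c : ℝ)) ^ s ≤ (s : ℝ) ^ s * (s ! : ℝ) * (c.choose s : ℝ) := by
  rcases Nat.eq_zero_or_pos s with rfl | hs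
  · simp
  have h1 := Nat.pow_le_choose (α := ℝ) s c
  have hf : (0 : ℝ) < (s ! : ℝ) := by exact_mod_cast Nat.factorial_pos s
  rw [div_le_iff₀ hf] at h1
  have h2 : (c : ℝ) ≤ s * ((c + 1 - s : ℕ) : ℝ) := by
    have h3 : c ≤ s * (c + 1 - s) := by
      obtain ⟨k, rfl⟩ := Nat.exists_eq_add_of_le hc
      have : s + k + 1 - s = k + 1 := by omega
      rw [this]
      nlinarith
    exact_mod_cast h3
  calc (c : ℝ) ^ s ≤ (s * ((c + 1 - s : ℕ) : ℝ)) ^ s := pow_le_pow_left₀ (Nat.cast_nonneg _) h2 _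
    _ = (s : ℝ) ^ s * ((c + 1 - s : ℕ) : ℝ) ^ s := mul_pow _ _ _
    _ ≤ (s : ℝ) ^ s * ((c.choose s : ℝ) * (s ! : ℝ)) := by
        apply mul_le_mul_of_nonneg_left h1 (by positivity)
    _ = _ := by ring

/-- The weighted number of common neighbours. -/
noncomputable def g (a : V → ℝ) (l j : V) : ℝ := ∑ i ∈ G.neighborFinset l ∩ G.neighborFinset j, a i

theorem sum_g (a : V → ℝ) (l : V) : ∑ j, g G a l j = ∑ i ∈ G.neighborFinset l, a i * G.degree i := by
  unfold g
  have : ∀ j, ∑ i ∈ G.neighborFinset l ∩ G.neighborFinset j, a i =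
      ∑ i ∈ G.neighborFinset l, if G.Adj i j then a i else 0 := by
    intro j
    rw [← sum_filter]
    apply sum_congr _ (fun _ _ => rfl)
    ext i
    rw [mem_inter, mem_filter, SimpleGraph.mem_neighborFinset, SimpleGraph.mem_neighborFinset, G.adj_comm j i]
  simp_rw [this]
  rw [sum_comm]
  apply sum_congr rfl
  intro i _
  rw [← sum_filter, sum_const, nsmul_eq_mul, mul_comm]
  congr 2
  rw [← SimpleGraph.card_neighborFinset_eq_degree]
  congr 1
  ext j
  simp

theorem Q_bound (s t : ℕ) (hs : 2 ≤ s)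
    (h : ∀ S : Finset V, S.card = s → (univ.filter (fun j => ∀ i ∈ S, G.Adj i j)).card ≤ t)
    (K : ℝ) (hK : 0 < K) (hdeg : ∀ i, K ≤ G.degree i) (μ : ℝ) (hμ : 0 < μ)
    (hμK : (s : ℝ) ^ s * t ≤ μ ^ (s - 1) * K) :
    ∑ l, ∑ j, g G (fun i => K / G.degree i) l j ^ 2 / G.degree l ≤
      2 * μ * K * ∑ l, (G.degree l : ℝ) + s * K * Fintype.card V := by
  have hd : ∀ i, (0 : ℝ) < G.degree i := fun i => lt_of_lt_of_le hK (hdeg i)
  set a : V → ℝ := fun i => K / G.degree i with ha
  have ha0 : ∀ i, 0 ≤ a i := fun i => div_nonneg hK.le (hd i).le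
  have ha1 : ∀ i, a i ≤ 1 := fun i => (div_le_one (hd i)).2 (hdeg i)
  have key : ∀ l, ∑ j, g G a l j ^ 2 / G.degree l ≤ 2 * μ * K * G.degree l + s * K := by
    intro l
    have hl := hd l
    set D : ℝ := ((G.degree l : ℕ) : ℝ) with hD
    set lam : ℝ := μ * D + s with hlam
    have hs0 : (0 : ℝ) < s := by exact_mod_cast (by omega : 0 < s)
    have hμD : 0 < μ * D := mul_pos hμ hl
    have pt : ∀ j, g G a l j ^ 2 ≤ lam * g G a l j +
        (s : ℝ) ^ s * (s ! : ℝ) / (μ * D) ^ (s - 2) * ((cn G l j).choose s : ℝ) := by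
      intro j
      have g0 : 0 ≤ g G a l j := sum_nonneg fun i _ => ha0 i
      have gc : g G a l j ≤ cn G l j := by
        unfold g cn
        calc ∑ i ∈ G.neighborFinset l ∩ G.neighborFinset j, a i
            ≤ ∑ i ∈ G.neighborFinset l ∩ G.neighborFinset j, (1 : ℝ) := sum_le_sum fun i _ => ha1 i
          _ = _ := by simp
      have hpos2 : 0 ≤ (s : ℝ) ^ s * (s ! : ℝ) / (μ * D) ^ (s - 2) * ((cn G l j).choose s : ℝ) := by positivity
      rcases le_or_gt (cn G l j : ℝ) lam with hc | hc
      · have : g G a l j ^ 2 ≤ lam * g G a l j := by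
          rw [pow_two]
          exact mul_le_mul_of_nonneg_right (gc.trans hc) g0
        linarith
      · have hsc : s ≤ cn G l j := by
          have : (s : ℝ) ≤ cn G l j := by linarith
          exact_mod_cast this
        have h1 := pow_le_choose' s (cn G l j) hsc
        have h2 : (μ * D) ^ (s - 2) * (cn G l j : ℝ) ^ 2 ≤ (cn G l j : ℝ) ^ s := by
          calc (μ * D) ^ (s - 2) * (cn G l j : ℝ) ^ 2 ≤ (cn G l j : ℝ) ^ (s - 2) * (cn G l j : ℝ) ^ 2 := by
                apply mul_le_mul_of_nonneg_right _ (by positivity)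
                apply pow_le_pow_left₀ hμD.le
                linarith
            _ = (cn G l j : ℝ) ^ s := by
                rw [← pow_add]
                congr 1
                omega
        have h3 : (cn G l j : ℝ) ^ 2 ≤
            (s : ℝ) ^ s * (s ! : ℝ) / (μ * D) ^ (s - 2) * ((cn G l j).choose s : ℝ) := by
          rw [div_mul_eq_mul_div, le_div_iff₀ (by positivity)]
          linarith
        have h4 : g G a l j ^ 2 ≤ (cn G l j : ℝ) ^ 2 := pow_le_pow_left₀ g0 gc 2
        have h5 : 0 ≤ lam * g G a l j := mul_nonneg (by positivity) g0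
        linarith
    have hsumg : ∑ j, g G a l j = K * D := by
      rw [sum_g]
      have : ∀ i ∈ G.neighborFinset l, a i * (G.degree i : ℝ) = K := by
        intro i _
        rw [ha]
        exact div_mul_cancel₀ _ (hd i).ne'
      rw [sum_congr rfl this, sum_const, SimpleGraph.card_neighborFinset_eq_degree, nsmul_eq_mul, mul_comm]
    have hsumc : ((∑ j, (cn G l j).choose s : ℕ) : ℝ) ≤ t * (D ^ s / (s ! : ℝ)) := by
      have h1 : ((∑ j, (cn G l j).choose s : ℕ) : ℝ) ≤ ((t * (G.degree l).choose s : ℕ) : ℝ) := by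
        exact_mod_cast sum_choose_le G s t h l
      refine h1.trans ?_
      push_cast
      exact mul_le_mul_of_nonneg_left (Nat.choose_le_pow_div (α := ℝ) s (G.degree l)) (Nat.cast_nonneg _)
    have hsf : (0 : ℝ) < (s ! : ℝ) := by exact_mod_cast Nat.factorial_pos s
    have tot : ∑ j, g G a l j ^ 2 ≤ (2 * μ * K * D + s * K) * D := by
      calc ∑ j, g G a l j ^ 2 ≤ ∑ j, (lam * g G a l j +
            (s : ℝ) ^ s * (s ! : ℝ) / (μ * D) ^ (s - 2) * ((cn G l j).choose s : ℝ)) := sum_le_sum fun j _ => pt j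
        _ = lam * (K * D) + (s : ℝ) ^ s * (s ! : ℝ) / (μ * D) ^ (s - 2) *
            ((∑ j, (cn G l j).choose s : ℕ) : ℝ) := by
            rw [sum_add_distrib, ← mul_sum, ← mul_sum, hsumg]
            push_cast
            rfl
        _ ≤ lam * (K * D) + (s : ℝ) ^ s * (s ! : ℝ) / (μ * D) ^ (s - 2) * (t * (D ^ s / (s ! : ℝ))) := by
            have : 0 ≤ (s : ℝ) ^ s * (s ! : ℝ) / (μ * D) ^ (s - 2) := by positivity
            have := mul_le_mul_of_nonneg_left hsumc this
            linarith
        _ ≤ lam * (K * D) + μ * K * D ^ 2 := by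
            have e : (s : ℝ) ^ s * (s ! : ℝ) / (μ * D) ^ (s - 2) * (t * (D ^ s / (s ! : ℝ))) =
                ((s : ℝ) ^ s * t) * D ^ 2 / μ ^ (s - 2) := by
              have hDs : D ^ s = D ^ (s - 2) * D ^ 2 := by
                rw [← pow_add]
                congr 1
                omega
              rw [hDs, mul_pow]
              field_simp
            rw [e]
            have : ((s : ℝ) ^ s * t) * D ^ 2 / μ ^ (s - 2) ≤ μ * K * D ^ 2 := by
              rw [div_le_iff₀ (by positivity)]
              have hμs : μ ^ (s - 1) = μ * μ ^ (s - 2) := by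
                rw [← pow_succ']
                congr 1
                omega
              rw [hμs] at hμK
              have := mul_le_mul_of_nonneg_right hμK (sq_nonneg D)
              nlinarith
            linarith
        _ = (2 * μ * K * D + s * K) * D := by
            rw [hlam]
            ring
    rw [← sum_div, div_le_iff₀ hl]
    exact tot
  calc ∑ l, ∑ j, g G a l j ^ 2 / G.degree l ≤ ∑ l, (2 * μ * K * G.degree l + s * K) :=
        sum_le_sum fun l _ => key l
    _ = _ := by
        rw [sum_add_distrib, ← mul_sum, sum_const, card_univ, nsmul_eq_mul]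
        ring

end counting

end Pool.Agent.TH528.GN
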