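import Pool.Agent.TH528.GN.Core
import Pool.Agent.TH602.Turan.Paths

/-!
# Graphs without `C_{2k}`: the edges between two neighbourhoods, and closed walks of length four
-/

set_option autoImplicit false

namespace Pool.Agent.TH528.GN

open Finset SimpleGraph Pool.Agent.TH602.Turan

variable {V : Type*} [Fintype V] [DecidableEq V] (G : SimpleGraph V) [DecidableRel G.Adj]

/-- The adjacent pairs `(a, b)` with `a` a neighbour of `x` and `b` a neighbour of `y`. -/
def quad (x y : V) : Finset (V × V) :=
  (G.neighborFinset x ×ˢ G.neighborFinset y).filter (fun e => G.Adj e.1 e.2)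

omit [Fintype V] [DecidableRel G.Adj] in
/-- If `x` and `y` are adjacent then a path with `2 k - 2` vertices from a neighbour of `x` to a neighbour of `y` closes up. -/
theorem quad_core {k : ℕ} (hk : 2 ≤ k) (hfree : (cycleGraph (2 * k)).Free G) (x y : V) (hxy : G.Adj x y)
    (H : Finset (V × V)) (hH : ∀ e ∈ H, G.Adj x e.1 ∧ G.Adj y e.2 ∧ G.Adj e.1 e.2 ∧ e.1 ≠ y ∧ e.2 ≠ x) :
    #H ≤ (2 * k - 3) * (#(H.image Prod.fst) + #(H.image Prod.snd)) := by
  by_contra hcon
  push Not at hcon
  obtain ⟨K, hKH, hKne, hK1, hK2⟩ := exists_core _ H hcon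
  obtain ⟨e₀, he₀⟩ := hKne
  obtain ⟨a, l, hlen, hpw, hch, hlast, hP, hall⟩ := greedy (fun v : V => ({v} : Finset V)) 1
    (2 * k - 3) (fun v => by simp)
    (fun b v => bif b then v ∈ K.image Prod.snd else v ∈ K.image Prod.fst) G.Adj
    (by
      intro b v hv S hS
      cases b with
      | false =>
        simp only [cond_false, mem_image] at hv
        obtain ⟨e, he, rfl⟩ := hv
        have h1 := hK1 e he
        have h2 : #S < #((K.filter fun e' => e'.1 = e.1).image Prod.snd) := by
          rw [card_image_of_injOn]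
          · omega
          · intro a ha b hb hab
            simp only [coe_filter, Set.mem_ofPred_eq] at ha hb
            exact Prod.ext (ha.2.trans hb.2.symm) hab
        obtain ⟨w, hw, hwS⟩ := exists_mem_notMem_of_card_lt_card h2
        rw [mem_image] at hw
        obtain ⟨e', he', rfl⟩ := hw
        rw [mem_filter] at he'
        refine ⟨e'.2, by simpa using hwS, ?_, ?_⟩
        · simp only [Bool.not_false, cond_true, mem_image]
          exact ⟨e', he'.1, rfl⟩
        · rw [← he'.2]
          exact (hH e' (hKH he'.1)).2.2.1.symm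
      | true =>
        simp only [cond_true, mem_image] at hv
        obtain ⟨e, he, rfl⟩ := hv
        have h1 := hK2 e he
        have h2 : #S < #((K.filter fun e' => e'.2 = e.2).image Prod.fst) := by
          rw [card_image_of_injOn]
          · omega
          · intro a ha b hb hab
            simp only [coe_filter, Set.mem_ofPred_eq] at ha hb
            exact Prod.ext hab (ha.2.trans hb.2.symm)
        obtain ⟨w, hw, hwS⟩ := exists_mem_notMem_of_card_lt_card h2
        rw [mem_image] at hw
        obtain ⟨e', he', rfl⟩ := hw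
        rw [mem_filter] at he'
        refine ⟨e'.1, by simpa using hwS, ?_, ?_⟩
        · simp only [Bool.not_true, cond_false, mem_image]
          exact ⟨e', he'.1, rfl⟩
        · rw [← he'.2]
          exact (hH e' (hKH he'.1)).2.2.1)
    false e₀.1 (by simp only [cond_false, mem_image]; exact ⟨e₀, he₀, rfl⟩) (2 * k - 3) (by omega)
  have hodd : not^[2 * k - 3] = not := by
    have : 2 * k - 3 = 2 * (k - 2) + 1 := by omega
    rw [this, Function.iterate_succ, Function.iterate_mul]
    have h2 : (not^[2] : Bool → Bool) = id := by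
      funext b; simp
    rw [h2, Function.iterate_id]
    rfl
  rw [hodd] at hP
  simp only [Bool.not_false, cond_true, mem_image] at hP
  obtain ⟨ea, hea, rfl⟩ := hP
  have hne : ∀ v ∈ ea.2 :: l, v ≠ x ∧ v ≠ y := by
    intro v hv
    obtain ⟨b, hb⟩ := hall v hv
    cases b with
    | false =>
      simp only [cond_false, mem_image] at hb
      obtain ⟨e, he, rfl⟩ := hb
      have h1 := hH e (hKH he)
      exact ⟨h1.1.ne', h1.2.2.2.1⟩
    | true =>
      simp only [cond_true, mem_image] at hb
      obtain ⟨e, he, rfl⟩ := hb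
      have h1 := hH e (hKH he)
      exact ⟨h1.2.2.2.2, h1.2.1.ne'⟩
  have hnd : (ea.2 :: l).Nodup := hpw.imp fun {u v} h => by
    rw [disjoint_singleton] at h
    exact h
  apply hfree
  refine cycle_of_list (x :: y :: ea.2 :: l) ?_ ?_ ?_ (by simp) ?_
  · rw [List.length_cons, List.length_cons, hlen]; omega
  · rw [List.nodup_cons, List.nodup_cons]
    refine ⟨?_, fun h => (hne y h).2 rfl, hnd⟩
    rw [List.mem_cons]
    rintro (h | h)
    · exact hxy.ne h
    · exact (hne x h).1 rfl
  · refine List.IsChain.cons_cons hxy (List.IsChain.cons_cons ?_ hch)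
    exact (hH ea (hKH hea)).2.1
  · rw [List.getLast_cons (by simp), List.getLast_cons (by simp), hlast, List.head_cons]
    exact (hH e₀ (hKH he₀)).1.symm

theorem quad_le {k : ℕ} (hk : 2 ≤ k) (hfree : (cycleGraph (2 * k)).Free G) (x y : V) (hxy : G.Adj x y) :
    #(quad G x y) ≤ (2 * k - 2) * (G.degree x + G.degree y) := by
  set H := (quad G x y).filter (fun e => e.1 ≠ y ∧ e.2 ≠ x) with hHdef
  have hmem : ∀ e ∈ quad G x y, G.Adj x e.1 ∧ G.Adj y e.2 ∧ G.Adj e.1 e.2 := by
    intro e he
    rw [quad, mem_filter, mem_product, SimpleGraph.mem_neighborFinset, SimpleGraph.mem_neighborFinset] at he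
    exact ⟨he.1.1, he.1.2, he.2⟩
  have h1 := quad_core G hk hfree x y hxy H (by
    intro e he
    rw [hHdef, mem_filter] at he
    have := hmem e he.1
    exact ⟨this.1, this.2.1, this.2.2, he.2.1, he.2.2⟩)
  have h2 : #(H.image Prod.fst) ≤ G.degree x := by
    rw [← card_neighborFinset_eq_degree]
    apply card_le_card
    intro v hv
    rw [mem_image] at hv
    obtain ⟨e, he, rfl⟩ := hv
    rw [mem_neighborFinset]
    exact (hmem e (mem_filter.1 he).1).1
  have h3 : #(H.image Prod.snd) ≤ G.degree y := by
    rw [← card_neighborFinset_eq_degree]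
    apply card_le_card
    intro v hv
    rw [mem_image] at hv
    obtain ⟨e, he, rfl⟩ := hv
    rw [mem_neighborFinset]
    exact (hmem e (mem_filter.1 he).1).2.1
  have h4 : quad G x y ⊆ H ∪ ((G.neighborFinset y).image (fun v => (y, v)) ∪
      (G.neighborFinset x).image (fun v => (v, x))) := by
    intro e he
    have h := hmem e he
    rw [mem_union, mem_union, mem_image, mem_image]
    by_cases ha : e.1 = y
    · right; left
      exact ⟨e.2, by rw [mem_neighborFinset]; exact h.2.1, by rw [← ha]⟩
    · by_cases hb : e.2 = x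
      · right; right
        exact ⟨e.1, by rw [mem_neighborFinset]; exact h.1, by rw [← hb]⟩
      · left
        rw [hHdef, mem_filter]
        exact ⟨he, ha, hb⟩
  have h5 : #((G.neighborFinset y).image (fun v => (y, v))) ≤ G.degree y := by
    rw [← card_neighborFinset_eq_degree]
    exact card_image_le
  have h6 : #((G.neighborFinset x).image (fun v => (v, x))) ≤ G.degree x := by
    rw [← card_neighborFinset_eq_degree]
    exact card_image_le
  have h7 := card_le_card h4
  have h8 := card_union_le H ((G.neighborFinset y).image (fun v => (y, v)) ∪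
      (G.neighborFinset x).image (fun v => (v, x)))
  have h9 := card_union_le ((G.neighborFinset y).image (fun v => (y, v)))
      ((G.neighborFinset x).image (fun v => (v, x)))
  obtain ⟨j, rfl⟩ : ∃ j, k = j + 2 := ⟨k - 2, by omega⟩
  have e1 : 2 * (j + 2) - 3 = 2 * j + 1 := by omega
  have e2 : 2 * (j + 2) - 2 = 2 * j + 2 := by omega
  rw [e1] at h1
  rw [e2]
  have h10 : (2 * j + 1) * (#(H.image Prod.fst) + #(H.image Prod.snd)) ≤
      (2 * j + 1) * (G.degree x + G.degree y) := Nat.mul_le_mul_left _ (by omega)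
  have h11 : (2 * j + 2) * (G.degree x + G.degree y) =
      (2 * j + 1) * (G.degree x + G.degree y) + (G.degree x + G.degree y) := by ring
  omega

/-- The sum of the numbers of common neighbours of `l` with the neighbours of `i`. -/
theorem sum_cn (l i : V) : ∑ j ∈ G.neighborFinset i, cn G l j = #(quad G l i) := by
  unfold quad cn
  rw [card_filter, sum_product_right]
  apply sum_congr rfl
  intro j _
  rw [← card_filter]
  congr 1
  ext a
  rw [mem_inter, mem_filter, mem_neighborFinset, mem_neighborFinset, G.adj_comm j a]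

theorem Q_cycle {k : ℕ} (hk : 2 ≤ k) (hfree : (cycleGraph (2 * k)).Free G)
    (K : ℝ) (hK : 0 < K) (hdeg : ∀ i, K ≤ G.degree i) :
    ∑ l, ∑ j, g G (fun i => K / G.degree i) l j ^ 2 / G.degree l ≤
      (4 * ((k : ℝ) - 1)) * (K * Fintype.card V) := by
  have hd : ∀ i, (0 : ℝ) < G.degree i := fun i => lt_of_lt_of_le hK (hdeg i)
  have hk1 : (0 : ℝ) ≤ (k : ℝ) - 1 := by
    have : (2 : ℝ) ≤ k := by exact_mod_cast hk
    linarith
  set a : V → ℝ := fun i => K / G.degree i with ha
  have ha0 : ∀ i, 0 ≤ a i := fun i => div_nonneg hK.le (hd i).le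
  have ha1 : ∀ i, a i ≤ 1 := fun i => (div_le_one (hd i)).2 (hdeg i)
  have key : ∀ l, ∑ j, g G a l j ^ 2 / G.degree l ≤
      2 * ((k : ℝ) - 1) * K * ∑ i ∈ G.neighborFinset l, (1 / (G.degree i : ℝ) + 1 / (G.degree l : ℝ)) := by
    intro l
    have gc : ∀ j, g G a l j ≤ cn G l j := by
      intro j
      unfold g cn
      calc ∑ i ∈ G.neighborFinset l ∩ G.neighborFinset j, a i
          ≤ ∑ i ∈ G.neighborFinset l ∩ G.neighborFinset j, (1 : ℝ) := sum_le_sum fun i _ => ha1 i
        _ = _ := by simp
    have g0 : ∀ j, 0 ≤ g G a l j := fun j => sum_nonneg fun i _ => ha0 i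
    have s1 : ∑ j, g G a l j ^ 2 ≤ ∑ j, g G a l j * cn G l j := by
      apply sum_le_sum
      intro j _
      rw [pow_two]
      exact mul_le_mul_of_nonneg_left (gc j) (g0 j)
    have s2 : ∑ j, g G a l j * cn G l j = ∑ i ∈ G.neighborFinset l, a i * (#(quad G l i) : ℝ) := by
      have : ∀ j, g G a l j * cn G l j =
          ∑ i ∈ G.neighborFinset l, if G.Adj i j then a i * cn G l j else 0 := by
        intro j
        rw [g, sum_mul, ← sum_filter]
        apply sum_congr _ (fun _ _ => rfl)
        ext i
        rw [mem_inter, mem_filter, SimpleGraph.mem_neighborFinset, SimpleGraph.mem_neighborFinset, G.adj_comm j i]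
      simp_rw [this]
      rw [sum_comm]
      apply sum_congr rfl
      intro i _
      rw [← sum_cn, ← sum_filter]
      push_cast
      rw [mul_sum]
      apply sum_congr _ (fun _ _ => rfl)
      ext j
      simp
    have s3 : ∀ i ∈ G.neighborFinset l, a i * (#(quad G l i) : ℝ) ≤
        G.degree l * (2 * ((k : ℝ) - 1) * K * (1 / (G.degree i : ℝ) + 1 / (G.degree l : ℝ))) := by
      intro i hi
      rw [mem_neighborFinset] at hi
      have h1 : (#(quad G l i) : ℝ) ≤ 2 * ((k : ℝ) - 1) * (G.degree l + G.degree i) := by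
        have h2 := quad_le G hk hfree l i hi
        have h3 : (#(quad G l i) : ℝ) ≤ ((2 * k - 2) * (G.degree l + G.degree i) : ℕ) := by exact_mod_cast h2
        rw [Nat.cast_mul, Nat.cast_sub (by omega)] at h3
        push_cast at h3
        linarith
      have hdi := hd i
      have hdl := hd l
      calc a i * (#(quad G l i) : ℝ) ≤ a i * (2 * ((k : ℝ) - 1) * (G.degree l + G.degree i)) :=
            mul_le_mul_of_nonneg_left h1 (ha0 i)
        _ = _ := by
            rw [ha]
            field_simp
    rw [← sum_div, div_le_iff₀ (hd l)]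
    calc ∑ j, g G a l j ^ 2 ≤ ∑ i ∈ G.neighborFinset l, a i * (#(quad G l i) : ℝ) := s1.trans_eq s2
      _ ≤ ∑ i ∈ G.neighborFinset l,
          G.degree l * (2 * ((k : ℝ) - 1) * K * (1 / (G.degree i : ℝ) + 1 / (G.degree l : ℝ))) := sum_le_sum s3
      _ = _ := by
          rw [← mul_sum, ← mul_sum]
          ring
  have t1 : ∑ l, ∑ i ∈ G.neighborFinset l, (1 / (G.degree l : ℝ)) = Fintype.card V := by
    have : ∀ l, ∑ i ∈ G.neighborFinset l, (1 / (G.degree l : ℝ)) = 1 := by
      intro l
      rw [sum_const, card_neighborFinset_eq_degree, nsmul_eq_mul, mul_one_div_cancel (hd l).ne']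
    simp_rw [this]
    simp
  have t2 : ∑ l, ∑ i ∈ G.neighborFinset l, (1 / (G.degree i : ℝ)) = Fintype.card V := by
    rw [← t1]
    have e1 : ∀ l, ∑ i ∈ G.neighborFinset l, (1 / (G.degree i : ℝ)) =
        ∑ i, if G.Adj l i then 1 / (G.degree i : ℝ) else 0 := by
      intro l
      rw [← sum_filter]
      apply sum_congr _ (fun _ _ => rfl)
      ext i
      simp
    have e2 : ∀ l, ∑ i ∈ G.neighborFinset l, (1 / (G.degree l : ℝ)) =
        ∑ i, if G.Adj l i then 1 / (G.degree l : ℝ) else 0 := by
      intro l
      rw [← sum_filter]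
      apply sum_congr _ (fun _ _ => rfl)
      ext i
      simp
    simp_rw [e1, e2]
    rw [sum_comm]
    apply sum_congr rfl
    intro i _
    apply sum_congr rfl
    intro l _
    by_cases h : G.Adj l i
    · rw [if_pos h, if_pos h.symm]
    · rw [if_neg h, if_neg (fun h' => h h'.symm)]
  calc ∑ l, ∑ j, g G a l j ^ 2 / G.degree l ≤ ∑ l, 2 * ((k : ℝ) - 1) * K *
        ∑ i ∈ G.neighborFinset l, (1 / (G.degree i : ℝ) + 1 / (G.degree l : ℝ)) := sum_le_sum fun l _ => key l
    _ = 2 * ((k : ℝ) - 1) * K * (∑ l, ∑ i ∈ G.neighborFinset l, (1 / (G.degree i : ℝ)) +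
        ∑ l, ∑ i ∈ G.neighborFinset l, (1 / (G.degree l : ℝ))) := by
        rw [← mul_sum, ← sum_add_distrib]
        congr 1
        apply sum_congr rfl
        intro l _
        rw [sum_add_distrib]
    _ = _ := by
        rw [t1, t2]
        ring

end Pool.Agent.TH528.GN
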