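import Pool.Agent.TH528.GN.Main
import Pool.Agent.TH528.GN.Quad

/-!
# Factorization norm of graphs without `C_{2k}`
-/

set_option autoImplicit false

namespace Pool.Agent.TH528.GN

open Matrix Finset

section core

variable {V : Type*} [Fintype V] [DecidableEq V] (G : SimpleGraph V) [DecidableRel G.Adj]

/-- The core theorem for graphs with few closed walks of length four: minimum degree at least `K`, average degree at most
`2 K`. -/
theorem core' [Nonempty V] (Θ : ℝ) (hΘ : 0 < Θ)
    (K : ℝ) (hK : 0 < K) (hdeg : ∀ i, K ≤ G.degree i)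
    (hsum : ∑ i, (G.degree i : ℝ) ≤ 2 * K * Fintype.card V)
    (hQ : ∑ l, ∑ j, g G (fun i => K / G.degree i) l j ^ 2 / G.degree l ≤ Θ * (K * Fintype.card V))
    {L : Type*} [Fintype L] (u v : V → L → ℝ) (β w : ℝ)
    (h0 : ∀ i j, ¬ G.Adj i j → ∑ l, u i l * v j l = 0)
    (h1 : ∀ i j, G.Adj i j → 1 ≤ |∑ l, u i l * v j l| ∧ |∑ l, u i l * v j l| ≤ β)
    (hu : ∀ i, ∑ l, u i l ^ 2 ≤ w) (hv : ∀ j, ∑ l, v j l ^ 2 ≤ w) :
    K ≤ 4 * (w ^ 2 * β ^ 4) * Θ := by
  set B : V → V → ℝ := fun i j => ∑ l, u i l * v j l with hB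
  have hd : ∀ i, (0 : ℝ) < G.degree i := fun i => lt_of_lt_of_le hK (hdeg i)
  -- an edge
  obtain ⟨i₀⟩ := ‹Nonempty V›
  obtain ⟨j₀, hj₀⟩ : ∃ j, G.Adj i₀ j := by
    have : 0 < G.degree i₀ := by exact_mod_cast hd i₀
    exact (G.degree_pos_iff_exists_adj i₀).1 this
  have hβ : 1 ≤ β := (h1 _ _ hj₀).1.trans (h1 _ _ hj₀).2
  have hw0 : 0 ≤ w := (sum_nonneg fun l _ => sq_nonneg _).trans (hu i₀)
  have hw : 1 ≤ w := by
    have h2 : (B i₀ j₀) ^ 2 ≤ w * w := by
      calc (B i₀ j₀) ^ 2 ≤ (∑ l, u i₀ l ^ 2) * (∑ l, v j₀ l ^ 2) := sum_mul_sq_le_sq_mul_sq _ _ _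
        _ ≤ w * w := mul_le_mul (hu _) (hv _) (sum_nonneg fun l _ => sq_nonneg _) hw0
    have h3 : 1 ≤ (B i₀ j₀) ^ 2 := by
      rw [← sq_abs]
      have := (h1 _ _ hj₀).1
      nlinarith
    nlinarith
  set W : ℝ := w ^ 2 * β ^ 4 with hW
  have hW1 : 1 ≤ W := by
    have a1 : 1 ≤ w ^ 2 := one_le_pow₀ hw
    have a2 : 1 ≤ β ^ 4 := one_le_pow₀ hβ
    nlinarith
  set m : ℝ := (Fintype.card V : ℝ) with hm
  have hm0 : 0 < m := by
    rw [hm]
    exact_mod_cast Fintype.card_pos_iff.2 ⟨i₀⟩
  set a : V → ℝ := fun i => K / G.degree i with ha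
  have ha0 : ∀ i, 0 ≤ a i := fun i => div_nonneg hK.le (hd i).le
  have ha1 : ∀ i, a i ≤ 1 := fun i => (div_le_one (hd i)).2 (hdeg i)
  set τ : ℝ := 1 / (2 * (β ^ 4 * Θ)) with hτdef
  have hτ : 0 < τ := by positivity
  set q : V → ℝ := fun j => 1 / Real.sqrt (G.degree j) with hq
  set x : V → ℝ := fun i => Real.sqrt (a i) with hx
  set y : V → ℝ := fun j => Real.sqrt (G.degree j) with hy
  have hy0 : ∀ j, 0 < y j := fun j => Real.sqrt_pos.2 (hd j)
  have hyq : ∀ j, q j * y j = 1 := fun j => by
    rw [hq, hy]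
    exact one_div_mul_cancel (hy0 j).ne'
  have hyy : ∀ j, y j ^ 2 = G.degree j := fun j => Real.sq_sqrt (hd j).le
  have hxx : ∀ i, x i ^ 2 = a i := fun i => Real.sq_sqrt (ha0 i)
  have hqq : ∀ j, q j ^ 2 * G.degree j = 1 := fun j => by
    rw [← hyy j, ← mul_pow, hyq, one_pow]
  set M : Matrix V V ℝ := fun i j => x i * B i j * q j with hM
  obtain ⟨R, hR1, hR2⟩ := exists_resolvent M τ hτ
  -- the upper bound
  have up : (∑ i, ∑ j, x i * y j * (M * R) i j * B i j) ^ 2 ≤
      1 / (4 * τ) * (w * m) * (w * (2 * K * m)) := by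
    refine (duality (M * R) (1 / (4 * τ)) ?_ u v x y).trans ?_
    · intro z
      have := hR1 z
      rw [div_mul_eq_mul_div, one_mul, le_div_iff₀ (by positivity)]
      linarith
    · have b1 : ∑ i, x i ^ 2 * ∑ l, u i l ^ 2 ≤ w * m := by
        calc ∑ i, x i ^ 2 * ∑ l, u i l ^ 2 ≤ ∑ _i : V, w := by
              apply sum_le_sum
              intro i _
              rw [hxx]
              calc a i * ∑ l, u i l ^ 2 ≤ 1 * w :=
                    mul_le_mul (ha1 i) (hu i) (sum_nonneg fun l _ => sq_nonneg _) zero_le_one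
                _ = w := one_mul _
          _ = w * m := by rw [sum_const, card_univ, nsmul_eq_mul, mul_comm]
      have b2 : ∑ j, y j ^ 2 * ∑ l, v j l ^ 2 ≤ w * (2 * K * m) := by
        calc ∑ j, y j ^ 2 * ∑ l, v j l ^ 2 ≤ ∑ j, w * (G.degree j : ℝ) := by
              apply sum_le_sum
              intro j _
              rw [hyy, mul_comm w]
              exact mul_le_mul_of_nonneg_left (hv j) (hd j).le
          _ = w * ∑ j, (G.degree j : ℝ) := by rw [mul_sum]
          _ ≤ w * (2 * K * m) := mul_le_mul_of_nonneg_left hsum hw0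
      have b0 : 0 ≤ ∑ j, y j ^ 2 * ∑ l, v j l ^ 2 :=
        sum_nonneg fun j _ => mul_nonneg (sq_nonneg _) (sum_nonneg fun l _ => sq_nonneg _)
      apply mul_le_mul _ b2 b0 (by positivity)
      exact mul_le_mul_of_nonneg_left b1 (by positivity)
  -- the lower bound
  have low : K * m / 2 ≤ ∑ i, ∑ j, x i * y j * (M * R) i j * B i j := by
    have c1 : ∑ i, ∑ j, x i * y j * (M * R) i j * B i j = ∑ j, (G.degree j : ℝ) * (Mᵀ * (M * R)) j j := by
      rw [sum_comm]
      apply sum_congr rfl
      intro j _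
      rw [Matrix.mul_apply, mul_sum]
      apply sum_congr rfl
      intro i _
      rw [transpose_apply]
      have : M i j * y j = x i * B i j := by
        rw [hM]
        calc x i * B i j * q j * y j = x i * B i j * (q j * y j) := by ring
          _ = x i * B i j := by rw [hyq, mul_one]
      calc x i * y j * (M * R) i j * B i j = (x i * B i j) * y j * (M * R) i j := by ring
        _ = M i j * (y j ^ 2) * (M * R) i j := by rw [← this]; ring
        _ = _ := by rw [hyy]; ring
    have c2 : ∀ j, (G.degree j : ℝ) * (Mᵀ * M) j j = ∑ i, a i * B i j ^ 2 := by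
      intro j
      rw [Matrix.mul_apply, mul_sum]
      apply sum_congr rfl
      intro i _
      rw [transpose_apply, hM]
      calc (G.degree j : ℝ) * (x i * B i j * q j * (x i * B i j * q j))
          = (x i ^ 2) * (B i j) ^ 2 * (q j ^ 2 * G.degree j) := by ring
        _ = a i * B i j ^ 2 := by rw [hxx, hqq, mul_one]
    have c3 : K * m ≤ ∑ j, ∑ i, a i * B i j ^ 2 := by
      have : ∀ i, K ≤ ∑ j, a i * B i j ^ 2 := by
        intro i
        calc K = a i * G.degree i := by rw [ha]; exact (div_mul_cancel₀ _ (hd i).ne').symm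
          _ = ∑ j ∈ G.neighborFinset i, a i := by
              rw [sum_const, SimpleGraph.card_neighborFinset_eq_degree, nsmul_eq_mul, mul_comm]
          _ ≤ ∑ j ∈ G.neighborFinset i, a i * B i j ^ 2 := by
              apply sum_le_sum
              intro j hj
              rw [SimpleGraph.mem_neighborFinset] at hj
              have h2 := (h1 i j hj).1
              have h3 : 1 ≤ B i j ^ 2 := by
                rw [← sq_abs]
                nlinarith
              have := ha0 i
              nlinarith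
          _ ≤ ∑ j, a i * B i j ^ 2 := by
              apply sum_le_sum_of_subset_of_nonneg (subset_univ _)
              intro j _ _
              exact mul_nonneg (ha0 i) (sq_nonneg _)
      rw [sum_comm]
      calc K * m = ∑ _i : V, K := by rw [sum_const, card_univ, nsmul_eq_mul, mul_comm]
        _ ≤ _ := sum_le_sum fun i _ => this i
    have c4 : ∀ j j', (G.degree j : ℝ) * (Mᵀ * M) j j' ^ 2 ≤ β ^ 4 * (g G a j' j ^ 2 / G.degree j') := by
      intro j j'
      have e1 : (Mᵀ * M) j j' = q j * q j' * ∑ i, a i * (B i j * B i j') := by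
        rw [Matrix.mul_apply, mul_sum]
        apply sum_congr rfl
        intro i _
        rw [transpose_apply, hM, ← hxx]
        ring
      have e2 : |∑ i, a i * (B i j * B i j')| ≤ β ^ 2 * g G a j' j := by
        calc |∑ i, a i * (B i j * B i j')| ≤ ∑ i, |a i * (B i j * B i j')| := abs_sum_le_sum_abs _ _
          _ ≤ ∑ i, (if i ∈ G.neighborFinset j' ∩ G.neighborFinset j then β ^ 2 * a i else 0) := by
              apply sum_le_sum
              intro i _
              rw [abs_mul, abs_mul, abs_of_nonneg (ha0 i)]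
              by_cases hi : i ∈ G.neighborFinset j' ∩ G.neighborFinset j
              · rw [if_pos hi]
                rw [mem_inter, SimpleGraph.mem_neighborFinset, SimpleGraph.mem_neighborFinset] at hi
                have b1 := (h1 i j hi.2.symm).2
                have b2 := (h1 i j' hi.1.symm).2
                have b3 : |B i j| * |B i j'| ≤ β ^ 2 := by
                  rw [pow_two]
                  exact mul_le_mul b1 b2 (abs_nonneg _) (by linarith)
                have := mul_le_mul_of_nonneg_left b3 (ha0 i)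
                linarith
              · rw [if_neg hi]
                rw [mem_inter, SimpleGraph.mem_neighborFinset, SimpleGraph.mem_neighborFinset] at hi
                have : B i j = 0 ∨ B i j' = 0 := by
                  by_contra hcon2
                  push Not at hcon2
                  apply hi
                  refine ⟨?_, ?_⟩
                  · by_contra hc
                    exact hcon2.2 (h0 i j' fun hh => hc hh.symm)
                  · by_contra hc
                    exact hcon2.1 (h0 i j fun hh => hc hh.symm)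
                rcases this with h' | h' <;> rw [h'] <;> simp
          _ = β ^ 2 * g G a j' j := by
              rw [← sum_filter, g, mul_sum]
              apply sum_congr _ (fun _ _ => rfl)
              ext i
              simp
      have e3 : (∑ i, a i * (B i j * B i j')) ^ 2 ≤ (β ^ 2 * g G a j' j) ^ 2 := by
        rw [← sq_abs]
        exact pow_le_pow_left₀ (abs_nonneg _) e2 2
      rw [e1, show β ^ 4 * (g G a j' j ^ 2 / (G.degree j' : ℝ)) = β ^ 4 * g G a j' j ^ 2 / (G.degree j' : ℝ) from
        (mul_div_assoc _ _ _).symm, le_div_iff₀ (hd j')]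
      calc (G.degree j : ℝ) * (q j * q j' * ∑ i, a i * (B i j * B i j')) ^ 2 * G.degree j'
          = (q j ^ 2 * G.degree j) * (q j' ^ 2 * G.degree j') * (∑ i, a i * (B i j * B i j')) ^ 2 := by ring
        _ = (∑ i, a i * (B i j * B i j')) ^ 2 := by rw [hqq, hqq, one_mul, one_mul]
        _ ≤ (β ^ 2 * g G a j' j) ^ 2 := e3
        _ = β ^ 4 * g G a j' j ^ 2 := by ring
    have c5 : ∑ j, (G.degree j : ℝ) * ∑ j', (Mᵀ * M) j j' ^ 2 ≤ β ^ 4 * (Θ * (K * m)) := by
      calc ∑ j, (G.degree j : ℝ) * ∑ j', (Mᵀ * M) j j' ^ 2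
          ≤ ∑ j, ∑ j', β ^ 4 * (g G a j' j ^ 2 / G.degree j') := by
            apply sum_le_sum
            intro j _
            rw [mul_sum]
            exact sum_le_sum fun j' _ => c4 j j'
        _ = β ^ 4 * ∑ l, ∑ j, g G a l j ^ 2 / G.degree l := by
            rw [sum_comm, mul_sum]
            apply sum_congr rfl
            intro l _
            rw [mul_sum]
        _ ≤ _ := mul_le_mul_of_nonneg_left hQ (by positivity)
    rw [c1]
    calc K * m / 2 = K * m - τ * (β ^ 4 * (Θ * (K * m))) := by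
          rw [hτdef]
          field_simp
          ring
      _ ≤ ∑ j, ∑ i, a i * B i j ^ 2 - τ * ∑ j, (G.degree j : ℝ) * ∑ j', (Mᵀ * M) j j' ^ 2 := by
          have := mul_le_mul_of_nonneg_left c5 hτ.le
          linarith
      _ = ∑ j, (G.degree j : ℝ) * ((Mᵀ * M) j j - τ * ∑ j', (Mᵀ * M) j j' ^ 2) := by
          rw [mul_sum, ← sum_sub_distrib]
          apply sum_congr rfl
          intro j _
          rw [mul_sub, c2]
          ring
      _ ≤ ∑ j, (G.degree j : ℝ) * (Mᵀ * (M * R)) j j :=
          sum_le_sum fun j _ => mul_le_mul_of_nonneg_left (hR2 j) (hd j).le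
  -- conclusion
  have hKm : 0 < K * m := by positivity
  have fin1 : (K * m / 2) ^ 2 ≤ 1 / (4 * τ) * (w * m) * (w * (2 * K * m)) :=
    (pow_le_pow_left₀ (by positivity) low 2).trans up
  have fin2 : 1 / (4 * τ) = β ^ 4 * Θ / 2 := by
    rw [hτdef]
    field_simp
    ring
  rw [fin2] at fin1
  have fin3 : (K * m) * (K * m) ≤ (K * m) * (4 * W * Θ * m) := by
    rw [hW]
    nlinarith
  have fin4 : K * m ≤ 4 * W * Θ * m := le_of_mul_le_mul_left fin3 hKm
  exact le_of_mul_le_mul_right fin4 hm0

end core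

section all

variable {V : Type*} [DecidableEq V] (G : SimpleGraph V) [DecidableRel G.Adj]

/-- The general theorem for graphs without `C_{2k}`. -/
theorem edges_le_cycle [Fintype V] {k : ℕ} (hk : 2 ≤ k) (hfree : (SimpleGraph.cycleGraph (2 * k)).Free G)
    {L : Type*} [Fintype L] (u v : V → L → ℝ) (β w : ℝ)
    (h0 : ∀ i j, ¬ G.Adj i j → ∑ l, u i l * v j l = 0)
    (h1 : ∀ i j, G.Adj i j → 1 ≤ |∑ l, u i l * v j l| ∧ |∑ l, u i l * v j l| ≤ β)
    (hu : ∀ i, ∑ l, u i l ^ 2 ≤ w) (hv : ∀ j, ∑ l, v j l ^ 2 ≤ w) :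
    (G.edgeFinset.card : ℝ) ≤ 16 * ((k : ℝ) - 1) * (w ^ 2 * β ^ 4) * Fintype.card V := by
  have hk1 : (0 : ℝ) < (k : ℝ) - 1 := by
    have : (2 : ℝ) ≤ k := by exact_mod_cast hk
    linarith
  classical
  have hedge : (2 * G.edgeFinset.card : ℕ) = inner2 G univ := by
    rw [← G.sum_degrees_eq_twice_card_edges, inner2_eq]
    apply sum_congr rfl
    intro i _
    unfold degIn
    rw [← SimpleGraph.card_neighborFinset_eq_degree]
    congr 1
    ext j
    simp
  rcases isEmpty_or_nonempty V with hV | hV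
  · have : inner2 G univ = 0 := by
      unfold inner2
      simp
    have h2 : G.edgeFinset.card = 0 := by omega
    rw [h2]
    simp
  obtain ⟨U, hU, K, hK1, hK2, hK3⟩ := exists_dense G
  have hedge' : (2 : ℝ) * G.edgeFinset.card = inner2 G univ := by exact_mod_cast hedge
  have hC0 : 0 ≤ 16 * ((k : ℝ) - 1) * (w ^ 2 * β ^ 4) := by positivity
  have hcard : (0 : ℝ) ≤ Fintype.card V := Nat.cast_nonneg _
  suffices hKK : K ≤ 16 * ((k : ℝ) - 1) * (w ^ 2 * β ^ 4) by
    have := mul_le_mul_of_nonneg_right hKK hcard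
    linarith
  rcases le_or_gt K 0 with hK0 | hK0
  · exact hK0.trans hC0
  have : Nonempty (U : Finset V) := ⟨⟨hU.choose, hU.choose_spec⟩⟩
  set H : SimpleGraph U := G.comap (fun i : U => (i : V)) with hH
  have hdegH : ∀ i : U, H.degree i = degIn G U i := by
    intro i
    rw [← SimpleGraph.card_neighborFinset_eq_degree]
    unfold degIn
    refine card_bij (fun (j : U) _ => (j : V)) ?_ ?_ ?_
    · intro j hj
      rw [SimpleGraph.mem_neighborFinset, hH, SimpleGraph.comap_adj] at hj
      exact mem_filter.2 ⟨j.2, hj⟩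
    · intro j _ j' _ hjj
      exact Subtype.ext hjj
    · intro j hj
      rw [mem_filter] at hj
      refine ⟨⟨j, hj.1⟩, ?_, rfl⟩
      rw [SimpleGraph.mem_neighborFinset, hH, SimpleGraph.comap_adj]
      exact hj.2
  have hHfree : (SimpleGraph.cycleGraph (2 * k)).Free H := by
    intro hc
    exact hfree (hc.trans ⟨(SimpleGraph.Embedding.comap (Function.Embedding.subtype (fun x => x ∈ U)) G).toCopy⟩)
  have hKdeg : ∀ i, K ≤ H.degree i := by
    intro i
    rw [hdegH]
    exact hK2 i i.2
  have := core' H (4 * ((k : ℝ) - 1)) (by positivity) K hK0 hKdeg ?_ (Q_cycle H hk hHfree K hK0 hKdeg)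
    (fun i => u i) (fun j => v j) β w (fun i j hij => h0 i j hij) (fun i j hij => h1 i j hij)
    (fun i => hu i) (fun j => hv j)
  · linarith
  · have e : ∑ i : U, (H.degree i : ℝ) = ∑ i ∈ U, (degIn G U i : ℝ) := by
      rw [← sum_coe_sort U (fun i => (degIn G U i : ℝ))]
      apply sum_congr rfl
      intro i _
      rw [hdegH]
    rw [e, hK1, Fintype.card_coe]

end all

end Pool.Agent.TH528.GN
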