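import Pool.Agent.TH528.GN.CycleMain

/-!
# Factorization norm and degeneracy
-/

set_option autoImplicit false

namespace Pool.Agent.TH528.GN

open Finset

/-- A graph without `C_{2k}` whose edges are represented by short vectors is degenerate. -/
theorem degenerate_of_represents {V : Type*} [DecidableEq V] [Fintype V] (G : SimpleGraph V) [DecidableRel G.Adj]
    {k : ℕ} (hk : 2 ≤ k) (hfree : (SimpleGraph.cycleGraph (2 * k)).Free G)
    {L : Type*} [Fintype L] (u v : V → L → ℝ) (β w : ℝ)
    (h0 : ∀ i j, ¬ G.Adj i j → ∑ l, u i l * v j l = 0)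
    (h1 : ∀ i j, G.Adj i j → 1 ≤ |∑ l, u i l * v j l| ∧ |∑ l, u i l * v j l| ≤ β)
    (hu : ∀ i, ∑ l, u i l ^ 2 ≤ w) (hv : ∀ j, ∑ l, v j l ^ 2 ≤ w)
    (U : Finset V) (hU : U.Nonempty) :
    ∃ i ∈ U, (((U.filter (fun j => G.Adj i j)).card : ℕ) : ℝ) ≤ 32 * ((k : ℝ) - 1) * (w ^ 2 * β ^ 4) := by
  classical
  by_contra hcon
  push Not at hcon
  set H : SimpleGraph U := G.comap (fun i : U => (i : V)) with hH
  have hHfree : (SimpleGraph.cycleGraph (2 * k)).Free H := by
    intro hc
    exact hfree (hc.trans ⟨(SimpleGraph.Embedding.comap (Function.Embedding.subtype (fun x => x ∈ U)) G).toCopy⟩)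
  have hdegH : ∀ i : U, H.degree i = (U.filter (fun j => G.Adj i j)).card := by
    intro i
    rw [← SimpleGraph.card_neighborFinset_eq_degree]
    refine card_bij (fun (j : U) _ => (j : V)) ?_ ?_ ?_
    · intro j hj
      rw [SimpleGraph.mem_neighborFinset, hH, SimpleGraph.comap_adj] at hj
      exact mem_filter.2 ⟨j.2, hj⟩
    · intro j _ j' _ hjj
      exact Subtype.ext hjj
    · intro j hj
      rw [mem_filter] at hj
      refine ⟨⟨j, hj.1⟩, ?_, rfl⟩
      rw [SimpleGraph.mem_neighborFinset, hH, SimpleGraph.comap_adj]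
      exact hj.2
  have hb := edges_le_cycle H hk hHfree (fun i => u i) (fun j => v j) β w (fun i j hij => h0 i j hij)
    (fun i j hij => h1 i j hij) (fun i => hu i) (fun j => hv j)
  have hs := H.sum_degrees_eq_twice_card_edges
  have hs' : ∑ i : U, (H.degree i : ℝ) = 2 * (H.edgeFinset.card : ℝ) := by exact_mod_cast hs
  have hlt : ∑ _i : U, (32 * ((k : ℝ) - 1) * (w ^ 2 * β ^ 4)) < ∑ i : U, (H.degree i : ℝ) := by
    have : Nonempty U := ⟨⟨hU.choose, hU.choose_spec⟩⟩
    apply sum_lt_sum_of_nonempty univ_nonempty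
    intro i _
    rw [hdegH]
    exact hcon i i.2
  rw [sum_const, card_univ, nsmul_eq_mul, hs'] at hlt
  linarith

/-- The vertices of a degenerate graph can be ranked such that every vertex has at most `d` neighbours of rank at least its
own, and different vertices have different ranks. -/
theorem exists_rank {V : Type*} [DecidableEq V] [Fintype V] (G : SimpleGraph V) [DecidableRel G.Adj] (d : ℕ)
    (h : ∀ U : Finset V, U.Nonempty → ∃ i ∈ U, (U.filter (fun j => G.Adj i j)).card ≤ d) :
    ∃ r : V → ℕ, Function.Injective r ∧ ∀ i, (univ.filter (fun j => G.Adj i j ∧ r i < r j)).card ≤ d := by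
  classical
  suffices hh : ∀ (m : ℕ) (U : Finset V), U.card = m → ∃ r : V → ℕ, Set.InjOn r U ∧
      ∀ i ∈ U, (U.filter (fun j => G.Adj i j ∧ r i < r j)).card ≤ d by
    obtain ⟨r, hr1, hr2⟩ := hh _ univ rfl
    exact ⟨r, fun i j hij => hr1 (by simp) (by simp) hij, fun i => hr2 i (mem_univ i)⟩
  intro m
  induction m with
  | zero =>
    intro U hU
    rw [card_eq_zero] at hU
    subst hU
    exact ⟨fun _ => 0, by simp, by simp⟩
  | succ m ih =>
    intro U hU
    have hne : U.Nonempty := card_pos.1 (by omega)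
    obtain ⟨i₀, hi₀, hd⟩ := h U hne
    obtain ⟨r, hr1, hr2⟩ := ih (U.erase i₀) (by rw [card_erase_of_mem hi₀]; omega)
    refine ⟨fun i => if i = i₀ then 0 else r i + 1, ?_, ?_⟩
    · intro i hi j hj hij
      simp only at hij
      by_cases h1 : i = i₀
      · by_cases h2 : j = i₀
        · rw [h1, h2]
        · rw [if_pos h1, if_neg h2] at hij
          omega
      · by_cases h2 : j = i₀
        · rw [if_neg h1, if_pos h2] at hij
          omega
        · rw [if_neg h1, if_neg h2] at hij
          apply hr1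
          · exact mem_coe.2 (mem_erase.2 ⟨h1, mem_coe.1 hi⟩)
          · exact mem_coe.2 (mem_erase.2 ⟨h2, mem_coe.1 hj⟩)
          · omega
    · intro i hi
      by_cases h1 : i = i₀
      · subst h1
        refine (card_le_card ?_).trans hd
        intro j hj
        rw [mem_filter] at hj ⊢
        exact ⟨hj.1, hj.2.1⟩
      · refine (card_le_card ?_).trans (hr2 i (mem_erase.2 ⟨h1, hi⟩))
        intro j hj
        rw [mem_filter] at hj ⊢
        obtain ⟨hj1, hj2, hj3⟩ := hj
        simp only at hj3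
        rw [if_neg h1] at hj3
        by_cases h2 : j = i₀
        · rw [if_pos h2] at hj3
          omega
        · rw [if_neg h2] at hj3
          exact ⟨mem_erase.2 ⟨h2, hj1⟩, hj2, by omega⟩

/-- A `d`-degenerate graph has factorization norm at most `2 √d`. -/
theorem represents_of_degenerate {V : Type*} [DecidableEq V] [Fintype V] (G : SimpleGraph V) [DecidableRel G.Adj] (d : ℕ)
    (hd : 1 ≤ d) (h : ∀ U : Finset V, U.Nonempty → ∃ i ∈ U, (U.filter (fun j => G.Adj i j)).card ≤ d) :
    ∃ u v : V → V ⊕ V → ℝ, (∀ i, ∑ l, u i l ^ 2 ≤ 2 * Real.sqrt d) ∧ (∀ j, ∑ l, v j l ^ 2 ≤ 2 * Real.sqrt d) ∧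
      ∀ i j, ∑ l, u i l * v j l = if G.Adj i j then 1 else 0 := by
  classical
  obtain ⟨r, hr, hr2⟩ := exists_rank G d h
  have hd0 : (0 : ℝ) < d := by exact_mod_cast hd
  set a : ℝ := Real.sqrt (Real.sqrt d) with ha
  have ha0 : 0 < a := Real.sqrt_pos.2 (Real.sqrt_pos.2 hd0)
  have haa : a ^ 2 = Real.sqrt d := Real.sq_sqrt (Real.sqrt_nonneg _)
  have haaaa : a ^ 2 * a ^ 2 = d := by rw [haa]; exact Real.mul_self_sqrt hd0.le
  let b : V → V → ℝ := fun i j => if G.Adj i j ∧ r i < r j then 1 else 0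
  have hb : ∀ i, ∑ j, b i j ^ 2 ≤ d := by
    intro i
    have : ∑ j, b i j ^ 2 = ((univ.filter (fun j => G.Adj i j ∧ r i < r j)).card : ℝ) := by
      rw [card_filter]
      push_cast
      apply sum_congr rfl
      intro j _
      show (if G.Adj i j ∧ r i < r j then (1 : ℝ) else 0) ^ 2 = _
      split_ifs <;> norm_num
    rw [this]
    exact_mod_cast hr2 i
  have hsq : ∀ i, ∑ j, (a⁻¹ * b i j) ^ 2 + ∑ j, (a * if j = i then 1 else 0) ^ 2 ≤ 2 * Real.sqrt d := by
    intro i
    have e1 : ∑ j, (a⁻¹ * b i j) ^ 2 = (a ^ 2)⁻¹ * ∑ j, b i j ^ 2 := by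
      rw [mul_sum]
      apply sum_congr rfl
      intro j _
      rw [mul_pow, inv_pow]
    have e2 : ∑ j, (a * if j = i then (1 : ℝ) else 0) ^ 2 = a ^ 2 := by
      rw [sum_eq_single i]
      · simp
      · intro j _ hj
        simp [hj]
      · simp
    have e3 : (a ^ 2)⁻¹ * ∑ j, b i j ^ 2 ≤ a ^ 2 := by
      rw [inv_mul_le_iff₀ (by positivity), haaaa]
      exact hb i
    rw [e1, e2, ← haa]
    linarith
  refine ⟨fun i => Sum.elim (fun j => a⁻¹ * b i j) (fun j => a * if j = i then 1 else 0),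
    fun i => Sum.elim (fun j => a * if j = i then 1 else 0) (fun j => a⁻¹ * b i j), ?_, ?_, ?_⟩
  · intro i
    rw [Fintype.sum_sum_type]
    simpa using hsq i
  · intro i
    rw [Fintype.sum_sum_type, add_comm]
    simpa using hsq i
  · intro i j
    rw [Fintype.sum_sum_type]
    simp only [Sum.elim_inl, Sum.elim_inr]
    have e1 : ∑ l, a⁻¹ * b i l * (a * if l = j then 1 else 0) = b i j := by
      rw [sum_eq_single j]
      · rw [if_pos rfl, mul_one]
        field_simp
      · intro l _ hl
        simp [hl]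
      · simp
    have e2 : ∑ l, (a * if l = i then 1 else 0) * (a⁻¹ * b j l) = b j i := by
      rw [sum_eq_single i]
      · rw [if_pos rfl, mul_one]
        field_simp
      · intro l _ hl
        simp [hl]
      · simp
    rw [e1, e2]
    show (if G.Adj i j ∧ r i < r j then (1 : ℝ) else 0) + (if G.Adj j i ∧ r j < r i then (1 : ℝ) else 0) = _
    by_cases hij : G.Adj i j
    · have hne : r i ≠ r j := fun h' => hij.ne (hr h')
      rw [if_pos hij]
      rcases lt_or_gt_of_ne hne with hlt | hlt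
      · rw [if_pos ⟨hij, hlt⟩, if_neg (fun h' => absurd h'.2 (by omega))]
        norm_num
      · rw [if_neg (fun h' => absurd h'.2 (by omega)), if_pos ⟨hij.symm, hlt⟩]
        norm_num
    · rw [if_neg hij, if_neg (fun h' => hij h'.1), if_neg (fun h' => hij h'.1.symm)]
      norm_num

end Pool.Agent.TH528.GN
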