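import Pool.Agent.TH528.GN.Core

/-!
# Low rank approximation of matrices with few closed walks of length four
-/

set_option autoImplicit false

namespace Pool.Agent.TH528.GN

open Matrix Finset Module
open scoped Nat

/-- An orthonormal family with `rank B` members spans the rows of `B`. -/
theorem exists_orthonormal {I J : Type*} [Fintype I] [Fintype J] (B : Matrix I J ℝ) :
    ∃ q : Fin B.rank → J → ℝ, (∀ k, ∑ j, q k j ^ 2 = 1) ∧
      (∀ x : J → ℝ, ∑ k, (∑ j, q k j * x j) ^ 2 ≤ ∑ j, x j ^ 2) ∧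
      (∀ i, ∑ k, (∑ j, q k j * B i j) ^ 2 = ∑ j, B i j ^ 2) ∧
      ∀ i j, B i j = ∑ k, (∑ j', q k j' * B i j') * q k j := by
  classical
  let f : (J → ℝ) ≃ₗ[ℝ] EuclideanSpace ℝ J := (WithLp.linearEquiv 2 ℝ (J → ℝ)).symm
  let W₀ : Submodule ℝ (J → ℝ) := Submodule.span ℝ (Set.range B.row)
  let W : Submodule ℝ (EuclideanSpace ℝ J) := W₀.map (f : (J → ℝ) →ₗ[ℝ] EuclideanSpace ℝ J)
  have hrank : finrank ℝ W = B.rank := by
    rw [Matrix.rank_eq_finrank_span_row]
    exact LinearEquiv.finrank_map_eq f W₀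
  let b := (stdOrthonormalBasis ℝ W).reindex (finCongr hrank)
  have hb : Orthonormal ℝ (fun k => (b k : EuclideanSpace ℝ J)) :=
    b.orthonormal.comp_linearIsometry W.subtypeₗᵢ
  have hinner : ∀ k (x : EuclideanSpace ℝ J), inner ℝ (b k : EuclideanSpace ℝ J) x =
      ∑ j, (b k : EuclideanSpace ℝ J) j * x j := by
    intro k x
    rw [PiLp.inner_apply]
    apply sum_congr rfl
    intro j _
    simp [mul_comm]
  refine ⟨fun k j => (b k : EuclideanSpace ℝ J) j, ?_, ?_, ?_, ?_⟩
  · intro k
    have h1 := hb.1 k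
    have h2 := EuclideanSpace.real_norm_sq_eq (b k : EuclideanSpace ℝ J)
    rw [h1, one_pow] at h2
    exact h2.symm
  · intro x
    have h1 := hb.sum_inner_products_le (x := (WithLp.toLp 2 x : EuclideanSpace ℝ J)) (s := univ)
    rw [EuclideanSpace.real_norm_sq_eq] at h1
    refine le_trans (le_of_eq ?_) h1
    apply sum_congr rfl
    intro k _
    rw [hinner, Real.norm_eq_abs, sq_abs]
  · intro i
    have hi : (WithLp.toLp 2 (B i) : EuclideanSpace ℝ J) ∈ W := ⟨B i, Submodule.subset_span ⟨i, rfl⟩, rfl⟩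
    have h1 := b.sum_sq_norm_inner_right ⟨_, hi⟩
    have h2 : ‖(⟨_, hi⟩ : W)‖ ^ 2 = ∑ j, B i j ^ 2 := by
      rw [Submodule.coe_norm]
      exact EuclideanSpace.real_norm_sq_eq _
    rw [h2] at h1
    rw [← h1]
    apply sum_congr rfl
    intro k _
    rw [Real.norm_eq_abs, sq_abs]
    congr 1
    exact ((Submodule.coe_inner W (b k) ⟨_, hi⟩).trans (hinner k _)).symm
  · intro i j
    have hi : (WithLp.toLp 2 (B i) : EuclideanSpace ℝ J) ∈ W := ⟨B i, Submodule.subset_span ⟨i, rfl⟩, rfl⟩
    have h1 := b.sum_repr' ⟨_, hi⟩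
    have h2 := congrArg (fun w : W => (w : EuclideanSpace ℝ J) j) h1
    simp only [Submodule.coe_sum, Submodule.coe_smul] at h2
    refine h2.symm.trans ?_
    simp only [WithLp.ofLp_sum, Finset.sum_apply, PiLp.smul_apply, smul_eq_mul]
    apply sum_congr rfl
    intro k _
    congr 1
    exact (Submodule.coe_inner W (b k) ⟨_, hi⟩).trans (hinner k _)

/-- If `B` has rank `ρ`, then `B` approximates `A` badly when the rows of `A` have few correlations. -/
theorem lowrank {I J : Type*} [Fintype I] [Fintype J] (U : Finset I) (A B : Matrix I J ℝ) :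
    ∃ S : ℝ, 0 ≤ S ∧ ∑ i ∈ U, ∑ j, A i j ^ 2 - ∑ i ∈ U, ∑ j, (A i j - B i j) ^ 2 ≤ S ∧
      S ^ 2 ≤ B.rank * ∑ j, ∑ j', (∑ i ∈ U, A i j * A i j') ^ 2 := by
  obtain ⟨q, hq1, hq2, hq3, hq4⟩ := exists_orthonormal B
  refine ⟨∑ k, ∑ i ∈ U, (∑ j, q k j * A i j) ^ 2, ?_, ?_, ?_⟩
  · exact sum_nonneg fun k _ => sum_nonneg fun i _ => sq_nonneg _
  · have e0 : ∑ k, ∑ i ∈ U, (∑ j, q k j * A i j) ^ 2 = ∑ i ∈ U, ∑ k, (∑ j, q k j * A i j) ^ 2 := sum_comm
    rw [e0, ← sum_sub_distrib]
    apply sum_le_sum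
    intro i _
    rw [← sum_sub_distrib]
    have e1 : ∑ j, (A i j ^ 2 - (A i j - B i j) ^ 2) = 2 * ∑ j, A i j * B i j - ∑ j, B i j ^ 2 := by
      rw [mul_sum, ← sum_sub_distrib]
      apply sum_congr rfl
      intro j _
      ring
    have e2 : ∑ j, A i j * B i j = ∑ k, (∑ j, q k j * A i j) * (∑ j, q k j * B i j) := by
      calc ∑ j, A i j * B i j = ∑ j, ∑ k, A i j * ((∑ j', q k j' * B i j') * q k j) := by
            apply sum_congr rfl
            intro j _
            conv_lhs => rw [hq4 i j]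
            rw [mul_sum]
        _ = ∑ k, ∑ j, A i j * ((∑ j', q k j' * B i j') * q k j) := sum_comm
        _ = _ := by
            apply sum_congr rfl
            intro k _
            rw [sum_mul]
            apply sum_congr rfl
            intro j _
            ring
    rw [e1, e2, ← hq3 i, mul_sum, ← sum_sub_distrib]
    apply sum_le_sum
    intro k _
    nlinarith [sq_nonneg ((∑ j, q k j * A i j) - (∑ j, q k j * B i j))]
  · set P : J → J → ℝ := fun j j' => ∑ i ∈ U, A i j * A i j' with hP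
    have e1 : ∀ k, ∑ i ∈ U, (∑ j, q k j * A i j) ^ 2 = ∑ j, q k j * ∑ j', q k j' * P j j' := by
      intro k
      calc ∑ i ∈ U, (∑ j, q k j * A i j) ^ 2 = ∑ i ∈ U, ∑ j, ∑ j', (q k j * A i j) * (q k j' * A i j') := by
            apply sum_congr rfl
            intro i _
            rw [pow_two, sum_mul_sum]
        _ = ∑ j, ∑ j', ∑ i ∈ U, (q k j * A i j) * (q k j' * A i j') := by
            rw [sum_comm]
            apply sum_congr rfl
            intro j _
            rw [sum_comm]
        _ = _ := by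
            apply sum_congr rfl
            intro j _
            rw [mul_sum]
            apply sum_congr rfl
            intro j' _
            rw [hP, mul_sum, mul_sum]
            apply sum_congr rfl
            intro i _
            ring
    have e2 : ∑ k, ∑ i ∈ U, (∑ j, q k j * A i j) ^ 2 =
        ∑ p : Fin B.rank × J, q p.1 p.2 * ∑ j', q p.1 j' * P p.2 j' := by
      rw [Fintype.sum_prod_type]
      exact sum_congr rfl fun k _ => e1 k
    rw [e2]
    refine (sum_mul_sq_le_sq_mul_sq _ _ _).trans ?_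
    have e3 : ∑ p : Fin B.rank × J, q p.1 p.2 ^ 2 = B.rank := by
      rw [Fintype.sum_prod_type]
      simp [hq1]
    rw [e3]
    apply mul_le_mul_of_nonneg_left _ (Nat.cast_nonneg _)
    rw [Fintype.sum_prod_type, sum_comm]
    exact sum_le_sum fun j _ => hq2 (P j)

section graph

variable {V : Type*} [Fintype V] [DecidableEq V] (G : SimpleGraph V) [DecidableRel G.Adj]

theorem adj_sum (i i' : V) : ∑ j, G.adjMatrix ℝ i j * G.adjMatrix ℝ i' j = cn G i i' := by
  simp only [SimpleGraph.adjMatrix_apply]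
  have : ∀ j, (if G.Adj i j then (1 : ℝ) else 0) * (if G.Adj i' j then 1 else 0) =
      if j ∈ G.neighborFinset i ∩ G.neighborFinset i' then 1 else 0 := by
    intro j
    by_cases h1 : G.Adj i j <;> by_cases h2 : G.Adj i' j <;> simp [h1, h2]
  simp_rw [this]
  rw [sum_boole, cn]
  congr 2
  ext j
  simp

theorem corr_eq (U : Finset V) :
    ∑ j, ∑ j', (∑ i ∈ U, G.adjMatrix ℝ i j * G.adjMatrix ℝ i j') ^ 2 =
      ∑ i ∈ U, ∑ i' ∈ U, (cn G i i' : ℝ) ^ 2 := by
  set A := G.adjMatrix ℝ with hA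
  calc ∑ j, ∑ j', (∑ i ∈ U, A i j * A i j') ^ 2
      = ∑ j, ∑ j', ∑ i ∈ U, ∑ i' ∈ U, (A i j * A i j') * (A i' j * A i' j') := by
        apply sum_congr rfl
        intro j _
        apply sum_congr rfl
        intro j' _
        rw [pow_two, sum_mul_sum]
    _ = ∑ i ∈ U, ∑ i' ∈ U, ∑ j, ∑ j', (A i j * A i j') * (A i' j * A i' j') := by
        have h1 : ∀ j, ∑ j', ∑ i ∈ U, ∑ i' ∈ U, (A i j * A i j') * (A i' j * A i' j') =
            ∑ i ∈ U, ∑ i' ∈ U, ∑ j', (A i j * A i j') * (A i' j * A i' j') := by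
          intro j
          rw [sum_comm]
          apply sum_congr rfl
          intro i _
          rw [sum_comm]
        simp_rw [h1]
        rw [sum_comm]
        apply sum_congr rfl
        intro i _
        rw [sum_comm]
    _ = ∑ i ∈ U, ∑ i' ∈ U, (cn G i i' : ℝ) ^ 2 := by
        apply sum_congr rfl
        intro i _
        apply sum_congr rfl
        intro i' _
        rw [← adj_sum, pow_two, sum_mul_sum]
        apply sum_congr rfl
        intro j _
        apply sum_congr rfl
        intro j' _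
        ring

/-- The number of closed walks of length four through a vertex of degree at most `Δ`. -/
theorem sum_cn_sq_le (s t : ℕ) (hs : 2 ≤ s)
    (h : ∀ S : Finset V, S.card = s → (univ.filter (fun j => ∀ i ∈ S, G.Adj i j)).card ≤ t)
    (i : V) (Δ lam : ℝ) (hd : (G.degree i : ℝ) ≤ Δ) (hlam : (s : ℝ) ≤ lam) :
    ∑ i', (cn G i i' : ℝ) ^ 2 ≤ Fintype.card V * lam ^ 2 + (s : ℝ) ^ s * t * Δ ^ s / lam ^ (s - 2) := by
  have hs0 : (0 : ℝ) < s := by exact_mod_cast (by omega : 0 < s)
  have hl0 : 0 < lam := by linarith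
  have pt : ∀ i', (cn G i i' : ℝ) ^ 2 ≤ lam ^ 2 +
      (s : ℝ) ^ s * (s ! : ℝ) / lam ^ (s - 2) * ((cn G i i').choose s : ℝ) := by
    intro i'
    have hpos2 : 0 ≤ (s : ℝ) ^ s * (s ! : ℝ) / lam ^ (s - 2) * ((cn G i i').choose s : ℝ) := by positivity
    rcases le_or_gt (cn G i i' : ℝ) lam with hc | hc
    · have := pow_le_pow_left₀ (Nat.cast_nonneg _) hc 2
      linarith
    · have hsc : s ≤ cn G i i' := by
        have : (s : ℝ) ≤ cn G i i' := by linarith
        exact_mod_cast this
      have h1 := pow_le_choose' s (cn G i i') hsc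
      have h2 : lam ^ (s - 2) * (cn G i i' : ℝ) ^ 2 ≤ (cn G i i' : ℝ) ^ s := by
        calc lam ^ (s - 2) * (cn G i i' : ℝ) ^ 2 ≤ (cn G i i' : ℝ) ^ (s - 2) * (cn G i i' : ℝ) ^ 2 := by
              apply mul_le_mul_of_nonneg_right _ (by positivity)
              exact pow_le_pow_left₀ hl0.le hc.le _
          _ = (cn G i i' : ℝ) ^ s := by
              rw [← pow_add]
              congr 1
              omega
      have h3 : (cn G i i' : ℝ) ^ 2 ≤
          (s : ℝ) ^ s * (s ! : ℝ) / lam ^ (s - 2) * ((cn G i i').choose s : ℝ) := by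
        rw [div_mul_eq_mul_div, le_div_iff₀ (by positivity)]
        linarith
      have := sq_nonneg lam
      linarith
  have hsf : (0 : ℝ) < (s ! : ℝ) := by exact_mod_cast Nat.factorial_pos s
  have hsumc : ((∑ i', (cn G i i').choose s : ℕ) : ℝ) ≤ t * (Δ ^ s / (s ! : ℝ)) := by
    have h1 : ((∑ i', (cn G i i').choose s : ℕ) : ℝ) ≤ ((t * (G.degree i).choose s : ℕ) : ℝ) := by
      exact_mod_cast sum_choose_le G s t h i
    refine h1.trans ?_
    push_cast
    apply mul_le_mul_of_nonneg_left _ (Nat.cast_nonneg _)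
    refine (Nat.choose_le_pow_div (α := ℝ) s (G.degree i)).trans ?_
    exact div_le_div_of_nonneg_right (pow_le_pow_left₀ (Nat.cast_nonneg _) hd s) hsf.le
  calc ∑ i', (cn G i i' : ℝ) ^ 2 ≤ ∑ i', (lam ^ 2 +
        (s : ℝ) ^ s * (s ! : ℝ) / lam ^ (s - 2) * ((cn G i i').choose s : ℝ)) := sum_le_sum fun i' _ => pt i'
    _ = Fintype.card V * lam ^ 2 + (s : ℝ) ^ s * (s ! : ℝ) / lam ^ (s - 2) *
          ((∑ i', (cn G i i').choose s : ℕ) : ℝ) := by
        rw [sum_add_distrib, ← mul_sum, sum_const, card_univ, nsmul_eq_mul]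
        push_cast
        rfl
    _ ≤ Fintype.card V * lam ^ 2 + (s : ℝ) ^ s * (s ! : ℝ) / lam ^ (s - 2) * (t * (Δ ^ s / (s ! : ℝ))) := by
        have : 0 ≤ (s : ℝ) ^ s * (s ! : ℝ) / lam ^ (s - 2) := by positivity
        have := mul_le_mul_of_nonneg_left hsumc this
        linarith
    _ = _ := by
        congr 1
        field_simp

/-- The vertices of large degree are on few edges. -/
theorem sum_high_le (s t : ℕ) (hs : 2 ≤ s)
    (h : ∀ S : Finset V, S.card = s → (univ.filter (fun j => ∀ i ∈ S, G.Adj i j)).card ≤ t)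
    (Δ : ℝ) (hΔ : (s : ℝ) ≤ Δ) :
    ∑ i ∈ univ.filter (fun i => Δ < (G.degree i : ℝ)), (G.degree i : ℝ) ≤
      (s : ℝ) ^ s * t * (Fintype.card V : ℝ) ^ s / Δ ^ (s - 1) := by
  have hs0 : (0 : ℝ) < s := by exact_mod_cast (by omega : 0 < s)
  have hΔ0 : 0 < Δ := by linarith
  have hsf : (0 : ℝ) < (s ! : ℝ) := by exact_mod_cast Nat.factorial_pos s
  have cnt : ∑ i, (G.degree i).choose s ≤ t * (Fintype.card V).choose s := by
    have e1 : ∀ i, (G.degree i).choose s =
        ∑ S ∈ powersetCard s (univ : Finset V), if (∀ k ∈ S, G.Adj k i) then 1 else 0 := by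
      intro i
      rw [← SimpleGraph.card_neighborFinset_eq_degree, ← card_powersetCard, sum_boole, Nat.cast_id]
      congr 1
      ext S
      rw [mem_powersetCard, mem_filter, mem_powersetCard]
      constructor
      · rintro ⟨h1, h2⟩
        refine ⟨⟨subset_univ _, h2⟩, fun k hk => ?_⟩
        have := h1 hk
        rw [SimpleGraph.mem_neighborFinset] at this
        exact this.symm
      · rintro ⟨⟨_, h2⟩, h3⟩
        refine ⟨fun k hk => ?_, h2⟩
        rw [SimpleGraph.mem_neighborFinset]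
        exact (h3 k hk).symm
    simp_rw [e1]
    rw [sum_comm]
    calc ∑ S ∈ powersetCard s (univ : Finset V), ∑ i, (if (∀ k ∈ S, G.Adj k i) then 1 else 0)
        ≤ ∑ S ∈ powersetCard s (univ : Finset V), t := by
          apply sum_le_sum
          intro S hS
          rw [sum_boole, Nat.cast_id]
          exact h S (mem_powersetCard.1 hS).2
      _ = t * (Fintype.card V).choose s := by
          rw [sum_const, card_powersetCard, card_univ, smul_eq_mul, mul_comm]
  calc ∑ i ∈ univ.filter (fun i => Δ < (G.degree i : ℝ)), (G.degree i : ℝ)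
      ≤ ∑ i ∈ univ.filter (fun i => Δ < (G.degree i : ℝ)),
          (s : ℝ) ^ s * (s ! : ℝ) / Δ ^ (s - 1) * ((G.degree i).choose s : ℝ) := by
        apply sum_le_sum
        intro i hi
        have hi' := (mem_filter.1 hi).2
        have hsc : s ≤ G.degree i := by
          have : (s : ℝ) ≤ G.degree i := by linarith
          exact_mod_cast this
        have h1 := pow_le_choose' s (G.degree i) hsc
        rw [div_mul_eq_mul_div, le_div_iff₀ (by positivity)]
        refine le_trans ?_ h1
        calc (G.degree i : ℝ) * Δ ^ (s - 1) ≤ (G.degree i : ℝ) * (G.degree i : ℝ) ^ (s - 1) := by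
              apply mul_le_mul_of_nonneg_left _ (Nat.cast_nonneg _)
              exact pow_le_pow_left₀ hΔ0.le hi'.le _
          _ = (G.degree i : ℝ) ^ s := by
              rw [← pow_succ']
              congr 1
              omega
    _ ≤ ∑ i, (s : ℝ) ^ s * (s ! : ℝ) / Δ ^ (s - 1) * ((G.degree i).choose s : ℝ) := by
        apply sum_le_sum_of_subset_of_nonneg (subset_univ _)
        intro i _ _
        positivity
    _ = (s : ℝ) ^ s * (s ! : ℝ) / Δ ^ (s - 1) * ((∑ i, (G.degree i).choose s : ℕ) : ℝ) := by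
        rw [← mul_sum]
        push_cast
        rfl
    _ ≤ (s : ℝ) ^ s * (s ! : ℝ) / Δ ^ (s - 1) * (t * ((Fintype.card V : ℝ) ^ s / (s ! : ℝ))) := by
        apply mul_le_mul_of_nonneg_left _ (by positivity)
        have h1 : ((∑ i, (G.degree i).choose s : ℕ) : ℝ) ≤ ((t * (Fintype.card V).choose s : ℕ) : ℝ) := by
          exact_mod_cast cnt
        refine h1.trans ?_
        push_cast
        exact mul_le_mul_of_nonneg_left (Nat.choose_le_pow_div (α := ℝ) s _) (Nat.cast_nonneg _)
    _ = _ := by field_simp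

end graph

end Pool.Agent.TH528.GN
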