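import Pool.Agent.TH528.GN.LowRank

/-!
# Low rank approximation of dense `K_{s,t}`-free graphs
-/

set_option autoImplicit false

namespace Pool.Agent.TH528.GN

open Matrix Finset
open scoped Nat

theorem approx_rank (s t : ℕ) (hs : 2 ≤ s) (c ε : ℝ) (hc : 0 < c) (hε : 0 < ε) :
    ∃ c' : ℝ, 0 < c' ∧ ∀ (V : Type) [Fintype V] [DecidableEq V] (n : ℕ) (G : SimpleGraph V) [DecidableRel G.Adj],
      (∀ S : Finset V, S.card = s → (univ.filter (fun j => ∀ i ∈ S, G.Adj i j)).card ≤ t) →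
      Fintype.card V = n → 1 ≤ n → c * (n : ℝ) ^ (2 - 1 / (s : ℝ)) ≤ G.edgeFinset.card →
      ∀ B : Matrix V V ℝ,
        ∑ i, ∑ j, (G.adjMatrix ℝ i j - B i j) ^ 2 ≤ (1 - ε) * (2 * G.edgeFinset.card) →
        c' * (n : ℝ) ^ (2 / (s : ℝ)) ≤ B.rank := by
  have hs0 : (0 : ℝ) < s := by exact_mod_cast (by omega : 0 < s)
  have hs1 : (1 : ℝ) ≤ s := by exact_mod_cast (by omega : 1 ≤ s)
  set κ : ℝ := s + (s : ℝ) ^ s * t / (ε * c) with hκ
  have hκs : (s : ℝ) ≤ κ := by
    rw [hκ]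
    have : 0 ≤ (s : ℝ) ^ s * t / (ε * c) := by positivity
    linarith
  have hκ1 : 1 ≤ κ := hs1.trans hκs
  have hκ0 : 0 < κ := by linarith
  set Kp : ℝ := (s : ℝ) ^ 2 * (1 + t * κ ^ s) with hKp
  have hKp0 : 0 < Kp := by positivity
  refine ⟨ε ^ 2 * c ^ 2 / Kp, by positivity, ?_⟩
  intro V _ _ n G _ h hV hn hedge B hB
  have hn0 : (0 : ℝ) < n := by exact_mod_cast hn
  have hn1 : (1 : ℝ) ≤ n := by exact_mod_cast hn
  set x : ℝ := (n : ℝ) ^ (1 / (s : ℝ)) with hx
  have hx0 : 0 < x := Real.rpow_pos_of_pos hn0 _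
  have hx1 : 1 ≤ x := Real.one_le_rpow hn1 (by positivity)
  have hxs : x ^ s = n := by
    rw [hx, ← Real.rpow_natCast, ← Real.rpow_mul hn0.le, one_div_mul_cancel hs0.ne', Real.rpow_one]
  have hx2 : (n : ℝ) ^ (2 / (s : ℝ)) = x ^ 2 := by
    rw [hx, ← Real.rpow_natCast, ← Real.rpow_mul hn0.le]
    congr 1
    push_cast
    ring
  have hx3 : (n : ℝ) ^ (2 - 1 / (s : ℝ)) = x ^ (2 * s - 1) := by
    rw [hx, ← Real.rpow_natCast, ← Real.rpow_mul hn0.le]
    congr 1
    rw [Nat.cast_sub (by omega)]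
    push_cast
    field_simp
  rw [hx3] at hedge
  rw [hx2]
  set e2 : ℝ := 2 * G.edgeFinset.card with he2
  have hdegsum : ∑ i, (G.degree i : ℝ) = e2 := by
    rw [he2]
    exact_mod_cast G.sum_degrees_eq_twice_card_edges
  have he2low : 2 * c * x ^ (2 * s - 1) ≤ e2 := by linarith
  set Δ : ℝ := κ * x ^ (s - 1) with hΔ
  set lam : ℝ := s * x ^ (s - 2) with hlam
  have hΔs : (s : ℝ) ≤ Δ := by
    rw [hΔ]
    have : 1 ≤ x ^ (s - 1) := one_le_pow₀ hx1
    nlinarith
  have hlams : (s : ℝ) ≤ lam := by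
    rw [hlam]
    exact le_mul_of_one_le_right hs0.le (one_le_pow₀ hx1)
  set U : Finset V := univ.filter (fun i => ¬ Δ < (G.degree i : ℝ)) with hU
  -- few edges at vertices of large degree
  have hhigh := sum_high_le G s t hs h Δ hΔs
  have hhigh2 : (s : ℝ) ^ s * t * (Fintype.card V : ℝ) ^ s / Δ ^ (s - 1) ≤ ε / 2 * e2 := by
    have a1 : (s : ℝ) ^ s * t * (Fintype.card V : ℝ) ^ s / Δ ^ (s - 1) =
        (s : ℝ) ^ s * t * x ^ (2 * s - 1) / κ ^ (s - 1) := by
      rw [hV, ← hxs, hΔ, mul_pow, ← pow_mul, ← pow_mul]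
      have a2 : x ^ (s * s) = x ^ ((s - 1) * (s - 1)) * x ^ (2 * s - 1) := by
        rw [← pow_add]
        congr 1
        obtain ⟨k, rfl⟩ := Nat.exists_eq_add_of_le hs
        have b1 : 2 + k - 1 = k + 1 := by omega
        have b2 : 2 * (2 + k) - 1 = 2 * k + 3 := by omega
        rw [b1, b2]
        ring
      rw [a2]
      field_simp
    rw [a1]
    have a3 : (s : ℝ) ^ s * t / κ ^ (s - 1) ≤ ε * c := by
      rw [div_le_iff₀ (by positivity)]
      have a4 : κ ≤ κ ^ (s - 1) := by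
        calc κ = κ ^ 1 := (pow_one _).symm
          _ ≤ κ ^ (s - 1) := pow_le_pow_right₀ hκ1 (by omega)
      have a5 : (s : ℝ) ^ s * t ≤ ε * c * κ := by
        rw [hκ, mul_add, mul_div_cancel₀ _ (by positivity)]
        have : 0 ≤ ε * c * s := by positivity
        linarith
      exact a5.trans (mul_le_mul_of_nonneg_left a4 (by positivity))
    calc (s : ℝ) ^ s * t * x ^ (2 * s - 1) / κ ^ (s - 1) = ((s : ℝ) ^ s * t / κ ^ (s - 1)) * x ^ (2 * s - 1) := by
          ring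
      _ ≤ ε * c * x ^ (2 * s - 1) := mul_le_mul_of_nonneg_right a3 (by positivity)
      _ ≤ ε / 2 * e2 := by nlinarith
  have hUsum : (1 - ε / 2) * e2 ≤ ∑ i ∈ U, (G.degree i : ℝ) := by
    have := sum_filter_add_sum_filter_not (univ : Finset V) (fun i => Δ < (G.degree i : ℝ))
      (fun i => (G.degree i : ℝ))
    rw [hdegsum] at this
    have h2 := hhigh.trans hhigh2
    linarith
  have hA : ∀ i, ∑ j, G.adjMatrix ℝ i j ^ 2 = G.degree i := by
    intro i
    have := adj_sum G i i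
    rw [cn, inter_self, SimpleGraph.card_neighborFinset_eq_degree] at this
    rw [← this]
    exact sum_congr rfl fun j _ => by ring
  obtain ⟨S, hS0, hS1, hS2⟩ := lowrank U (G.adjMatrix ℝ) B
  have hS3 : ε * c * x ^ (2 * s - 1) ≤ S := by
    have b1 : ∑ i ∈ U, ∑ j, G.adjMatrix ℝ i j ^ 2 = ∑ i ∈ U, (G.degree i : ℝ) :=
      sum_congr rfl fun i _ => hA i
    have b2 : ∑ i ∈ U, ∑ j, (G.adjMatrix ℝ i j - B i j) ^ 2 ≤ (1 - ε) * e2 := by
      refine le_trans ?_ hB
      apply sum_le_sum_of_subset_of_nonneg (subset_univ _)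
      intro i _ _
      exact sum_nonneg fun j _ => sq_nonneg _
    have b3 : ε / 2 * e2 ≤ S := by
      rw [b1] at hS1
      linarith
    nlinarith
  have hcorr : ∑ j, ∑ j', (∑ i ∈ U, G.adjMatrix ℝ i j * G.adjMatrix ℝ i j') ^ 2 ≤ Kp * x ^ (4 * s - 4) := by
    rw [corr_eq]
    have c1 : ∀ i ∈ U, ∑ i' ∈ U, (cn G i i' : ℝ) ^ 2 ≤ Kp * x ^ (3 * s - 4) := by
      intro i hi
      have hdi : (G.degree i : ℝ) ≤ Δ := not_lt.1 (mem_filter.1 hi).2
      calc ∑ i' ∈ U, (cn G i i' : ℝ) ^ 2 ≤ ∑ i', (cn G i i' : ℝ) ^ 2 := by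
            apply sum_le_sum_of_subset_of_nonneg (subset_univ _)
            intro i' _ _
            exact sq_nonneg _
        _ ≤ Fintype.card V * lam ^ 2 + (s : ℝ) ^ s * t * Δ ^ s / lam ^ (s - 2) :=
            sum_cn_sq_le G s t hs h i Δ lam hdi hlams
        _ = Kp * x ^ (3 * s - 4) := by
            obtain ⟨k, rfl⟩ := Nat.exists_eq_add_of_le hs
            have b1 : 2 + k - 1 = k + 1 := by omega
            have b2 : 2 + k - 2 = k := by omega
            have b3 : 3 * (2 + k) - 4 = 3 * k + 2 := by omega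
            rw [hV, ← hxs, hKp, hlam, hΔ, b1, b2, b3]
            have b4 : (((2 + k : ℕ) : ℝ) * x ^ k) ^ k = ((2 + k : ℕ) : ℝ) ^ k * x ^ (k * k) := by
              rw [mul_pow, ← pow_mul]
            have b5 : (κ * x ^ (k + 1)) ^ (2 + k) = κ ^ (2 + k) * (x ^ (k * k) * x ^ (3 * k + 2)) := by
              rw [mul_pow, ← pow_mul, ← pow_add]
              congr 2
              ring
            have b6 : ((2 + k : ℕ) : ℝ) ^ (2 + k) = ((2 + k : ℕ) : ℝ) ^ 2 * ((2 + k : ℕ) : ℝ) ^ k := pow_add _ _ _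
            rw [b4, b5, b6]
            have p1 : (0 : ℝ) < ((2 + k : ℕ) : ℝ) := by positivity
            have b7 : x ^ (2 + k) * (((2 + k : ℕ) : ℝ) * x ^ k) ^ 2 = ((2 + k : ℕ) : ℝ) ^ 2 * x ^ (3 * k + 2) := by
              rw [mul_pow, ← pow_mul]
              have : x ^ (3 * k + 2) = x ^ (2 + k) * x ^ (k * 2) := by
                rw [← pow_add]
                congr 1
                ring
              rw [this]
              ring
            rw [b7]
            field_simp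
    calc ∑ i ∈ U, ∑ i' ∈ U, (cn G i i' : ℝ) ^ 2 ≤ ∑ _i ∈ U, Kp * x ^ (3 * s - 4) := sum_le_sum c1
      _ = U.card * (Kp * x ^ (3 * s - 4)) := by rw [sum_const, nsmul_eq_mul]
      _ ≤ n * (Kp * x ^ (3 * s - 4)) := by
          apply mul_le_mul_of_nonneg_right _ (by positivity)
          have := card_le_univ U
          rw [hV] at this
          exact_mod_cast this
      _ = Kp * x ^ (4 * s - 4) := by
          rw [← hxs]
          have : x ^ (4 * s - 4) = x ^ s * x ^ (3 * s - 4) := by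
            rw [← pow_add]
            congr 1
            omega
          rw [this]
          ring
  have hfin : (ε * c * x ^ (2 * s - 1)) ^ 2 ≤ B.rank * (Kp * x ^ (4 * s - 4)) := by
    calc (ε * c * x ^ (2 * s - 1)) ^ 2 ≤ S ^ 2 := pow_le_pow_left₀ (by positivity) hS3 2
      _ ≤ _ := hS2
      _ ≤ _ := mul_le_mul_of_nonneg_left hcorr (Nat.cast_nonneg _)
  have hpow : (x ^ (2 * s - 1)) ^ 2 = x ^ 2 * x ^ (4 * s - 4) := by
    rw [← pow_mul, ← pow_add]
    congr 1
    omega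
  have hx4 : 0 < x ^ (4 * s - 4) := by positivity
  rw [mul_pow, hpow] at hfin
  have hfin2 : ((ε * c) ^ 2 * x ^ 2) * x ^ (4 * s - 4) ≤ ((B.rank : ℝ) * Kp) * x ^ (4 * s - 4) := by
    linarith
  have hfin3 := le_of_mul_le_mul_right hfin2 hx4
  rw [div_mul_eq_mul_div, div_le_iff₀ hKp0]
  linarith [mul_pow ε c 2]

end Pool.Agent.TH528.GN
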