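import Pool.Agent.TH528.GN.Core

/-!
# Factorization norm and complete bipartite subgraphs: graphs of large minimum degree, and all graphs
-/

set_option autoImplicit false

namespace Pool.Agent.TH528.GN

open Matrix Finset
open scoped Nat

section core

variable {V : Type*} [Fintype V] [DecidableEq V] (G : SimpleGraph V) [DecidableRel G.Adj]

/-- The core theorem: minimum degree at least `K`, average degree at most `2 K`. -/
theorem core [Nonempty V] (s t : ℕ) (hs : 2 ≤ s) (ht : 1 ≤ t)
    (h : ∀ S : Finset V, S.card = s → (univ.filter (fun j => ∀ i ∈ S, G.Adj i j)).card ≤ t)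
    (K : ℝ) (hK : 0 < K) (hdeg : ∀ i, K ≤ G.degree i)
    (hsum : ∑ i, (G.degree i : ℝ) ≤ 2 * K * Fintype.card V)
    {L : Type*} [Fintype L] (u v : V → L → ℝ) (β w : ℝ)
    (h0 : ∀ i j, ¬ G.Adj i j → ∑ l, u i l * v j l = 0)
    (h1 : ∀ i j, G.Adj i j → 1 ≤ |∑ l, u i l * v j l| ∧ |∑ l, u i l * v j l| ≤ β)
    (hu : ∀ i, ∑ l, u i l ^ 2 ≤ w) (hv : ∀ j, ∑ l, v j l ^ 2 ≤ w) :
    K ≤ (20 * (w ^ 2 * β ^ 4)) ^ (s - 1) * (s : ℝ) ^ s * t := by
  by_contra hcon
  push Not at hcon
  set B : V → V → ℝ := fun i j => ∑ l, u i l * v j l with hB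
  have hd : ∀ i, (0 : ℝ) < G.degree i := fun i => lt_of_lt_of_le hK (hdeg i)
  -- an edge
  obtain ⟨i₀⟩ := ‹Nonempty V›
  obtain ⟨j₀, hj₀⟩ : ∃ j, G.Adj i₀ j := by
    have : 0 < G.degree i₀ := by exact_mod_cast hd i₀
    exact (G.degree_pos_iff_exists_adj i₀).1 this
  have hβ : 1 ≤ β := (h1 _ _ hj₀).1.trans (h1 _ _ hj₀).2
  have hw0 : 0 ≤ w := (sum_nonneg fun l _ => sq_nonneg _).trans (hu i₀)
  have hw : 1 ≤ w := by
    have h2 : (B i₀ j₀) ^ 2 ≤ w * w := by
      calc (B i₀ j₀) ^ 2 ≤ (∑ l, u i₀ l ^ 2) * (∑ l, v j₀ l ^ 2) := sum_mul_sq_le_sq_mul_sq _ _ _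
        _ ≤ w * w := mul_le_mul (hu _) (hv _) (sum_nonneg fun l _ => sq_nonneg _) hw0
    have h3 : 1 ≤ (B i₀ j₀) ^ 2 := by
      rw [← sq_abs]
      have := (h1 _ _ hj₀).1
      nlinarith
    nlinarith
  set W : ℝ := w ^ 2 * β ^ 4 with hW
  have hW1 : 1 ≤ W := by
    have a1 : 1 ≤ w ^ 2 := one_le_pow₀ hw
    have a2 : 1 ≤ β ^ 4 := one_le_pow₀ hβ
    nlinarith
  have hs1 : (1 : ℝ) ≤ s := by exact_mod_cast (by omega : 1 ≤ s)
  have ht1 : (1 : ℝ) ≤ t := by exact_mod_cast ht
  set μ : ℝ := 1 / (20 * W) with hμdef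
  have hμ : 0 < μ := by positivity
  have hμK : (s : ℝ) ^ s * t ≤ μ ^ (s - 1) * K := by
    have hp : (0 : ℝ) < (20 * W) ^ (s - 1) := by positivity
    rw [hμdef, one_div, inv_pow, ← div_eq_inv_mul, le_div_iff₀ hp]
    nlinarith
  set m : ℝ := (Fintype.card V : ℝ) with hm
  have hm0 : 0 < m := by
    rw [hm]
    exact_mod_cast Fintype.card_pos_iff.2 ⟨i₀⟩
  set a : V → ℝ := fun i => K / G.degree i with ha
  have ha0 : ∀ i, 0 ≤ a i := fun i => div_nonneg hK.le (hd i).le
  have ha1 : ∀ i, a i ≤ 1 := fun i => (div_le_one (hd i)).2 (hdeg i)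
  have hQ := Q_bound G s t hs h K hK hdeg μ hμ hμK
  have hQ' : ∑ l, ∑ j, g G a l j ^ 2 / G.degree l ≤ (4 * μ * K + s) * (K * m) := by
    refine hQ.trans ?_
    have : 2 * μ * K * ∑ l, (G.degree l : ℝ) ≤ 2 * μ * K * (2 * K * m) :=
      mul_le_mul_of_nonneg_left hsum (by positivity)
    nlinarith
  set τ : ℝ := 1 / (2 * (β ^ 4 * (4 * μ * K + s))) with hτdef
  have hτ : 0 < τ := by positivity
  set q : V → ℝ := fun j => 1 / Real.sqrt (G.degree j) with hq
  set x : V → ℝ := fun i => Real.sqrt (a i) with hx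
  set y : V → ℝ := fun j => Real.sqrt (G.degree j) with hy
  have hy0 : ∀ j, 0 < y j := fun j => Real.sqrt_pos.2 (hd j)
  have hyq : ∀ j, q j * y j = 1 := fun j => by
    rw [hq, hy]
    exact one_div_mul_cancel (hy0 j).ne'
  have hyy : ∀ j, y j ^ 2 = G.degree j := fun j => Real.sq_sqrt (hd j).le
  have hxx : ∀ i, x i ^ 2 = a i := fun i => Real.sq_sqrt (ha0 i)
  have hqq : ∀ j, q j ^ 2 * G.degree j = 1 := fun j => by
    rw [← hyy j, ← mul_pow, hyq, one_pow]
  set M : Matrix V V ℝ := fun i j => x i * B i j * q j with hM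
  obtain ⟨R, hR1, hR2⟩ := exists_resolvent M τ hτ
  -- the upper bound
  have up : (∑ i, ∑ j, x i * y j * (M * R) i j * B i j) ^ 2 ≤
      1 / (4 * τ) * (w * m) * (w * (2 * K * m)) := by
    refine (duality (M * R) (1 / (4 * τ)) ?_ u v x y).trans ?_
    · intro z
      have := hR1 z
      rw [div_mul_eq_mul_div, one_mul, le_div_iff₀ (by positivity)]
      linarith
    · have b1 : ∑ i, x i ^ 2 * ∑ l, u i l ^ 2 ≤ w * m := by
        calc ∑ i, x i ^ 2 * ∑ l, u i l ^ 2 ≤ ∑ _i : V, w := by
              apply sum_le_sum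
              intro i _
              rw [hxx]
              calc a i * ∑ l, u i l ^ 2 ≤ 1 * w :=
                    mul_le_mul (ha1 i) (hu i) (sum_nonneg fun l _ => sq_nonneg _) zero_le_one
                _ = w := one_mul _
          _ = w * m := by rw [sum_const, card_univ, nsmul_eq_mul, mul_comm]
      have b2 : ∑ j, y j ^ 2 * ∑ l, v j l ^ 2 ≤ w * (2 * K * m) := by
        calc ∑ j, y j ^ 2 * ∑ l, v j l ^ 2 ≤ ∑ j, w * (G.degree j : ℝ) := by
              apply sum_le_sum
              intro j _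
              rw [hyy, mul_comm w]
              exact mul_le_mul_of_nonneg_left (hv j) (hd j).le
          _ = w * ∑ j, (G.degree j : ℝ) := by rw [mul_sum]
          _ ≤ w * (2 * K * m) := mul_le_mul_of_nonneg_left hsum hw0
      have b0 : 0 ≤ ∑ j, y j ^ 2 * ∑ l, v j l ^ 2 :=
        sum_nonneg fun j _ => mul_nonneg (sq_nonneg _) (sum_nonneg fun l _ => sq_nonneg _)
      apply mul_le_mul _ b2 b0 (by positivity)
      exact mul_le_mul_of_nonneg_left b1 (by positivity)
  -- the lower bound
  have low : K * m / 2 ≤ ∑ i, ∑ j, x i * y j * (M * R) i j * B i j := by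
    have c1 : ∑ i, ∑ j, x i * y j * (M * R) i j * B i j = ∑ j, (G.degree j : ℝ) * (Mᵀ * (M * R)) j j := by
      rw [sum_comm]
      apply sum_congr rfl
      intro j _
      rw [Matrix.mul_apply, mul_sum]
      apply sum_congr rfl
      intro i _
      rw [transpose_apply]
      have : M i j * y j = x i * B i j := by
        rw [hM]
        calc x i * B i j * q j * y j = x i * B i j * (q j * y j) := by ring
          _ = x i * B i j := by rw [hyq, mul_one]
      calc x i * y j * (M * R) i j * B i j = (x i * B i j) * y j * (M * R) i j := by ring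
        _ = M i j * (y j ^ 2) * (M * R) i j := by rw [← this]; ring
        _ = _ := by rw [hyy]; ring
    have c2 : ∀ j, (G.degree j : ℝ) * (Mᵀ * M) j j = ∑ i, a i * B i j ^ 2 := by
      intro j
      rw [Matrix.mul_apply, mul_sum]
      apply sum_congr rfl
      intro i _
      rw [transpose_apply, hM]
      calc (G.degree j : ℝ) * (x i * B i j * q j * (x i * B i j * q j))
          = (x i ^ 2) * (B i j) ^ 2 * (q j ^ 2 * G.degree j) := by ring
        _ = a i * B i j ^ 2 := by rw [hxx, hqq, mul_one]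
    have c3 : K * m ≤ ∑ j, ∑ i, a i * B i j ^ 2 := by
      have : ∀ i, K ≤ ∑ j, a i * B i j ^ 2 := by
        intro i
        calc K = a i * G.degree i := by rw [ha]; exact (div_mul_cancel₀ _ (hd i).ne').symm
          _ = ∑ j ∈ G.neighborFinset i, a i := by
              rw [sum_const, SimpleGraph.card_neighborFinset_eq_degree, nsmul_eq_mul, mul_comm]
          _ ≤ ∑ j ∈ G.neighborFinset i, a i * B i j ^ 2 := by
              apply sum_le_sum
              intro j hj
              rw [SimpleGraph.mem_neighborFinset] at hj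
              have h2 := (h1 i j hj).1
              have h3 : 1 ≤ B i j ^ 2 := by
                rw [← sq_abs]
                nlinarith
              have := ha0 i
              nlinarith
          _ ≤ ∑ j, a i * B i j ^ 2 := by
              apply sum_le_sum_of_subset_of_nonneg (subset_univ _)
              intro j _ _
              exact mul_nonneg (ha0 i) (sq_nonneg _)
      rw [sum_comm]
      calc K * m = ∑ _i : V, K := by rw [sum_const, card_univ, nsmul_eq_mul, mul_comm]
        _ ≤ _ := sum_le_sum fun i _ => this i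
    have c4 : ∀ j j', (G.degree j : ℝ) * (Mᵀ * M) j j' ^ 2 ≤ β ^ 4 * (g G a j' j ^ 2 / G.degree j') := by
      intro j j'
      have e1 : (Mᵀ * M) j j' = q j * q j' * ∑ i, a i * (B i j * B i j') := by
        rw [Matrix.mul_apply, mul_sum]
        apply sum_congr rfl
        intro i _
        rw [transpose_apply, hM, ← hxx]
        ring
      have e2 : |∑ i, a i * (B i j * B i j')| ≤ β ^ 2 * g G a j' j := by
        calc |∑ i, a i * (B i j * B i j')| ≤ ∑ i, |a i * (B i j * B i j')| := abs_sum_le_sum_abs _ _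
          _ ≤ ∑ i, (if i ∈ G.neighborFinset j' ∩ G.neighborFinset j then β ^ 2 * a i else 0) := by
              apply sum_le_sum
              intro i _
              rw [abs_mul, abs_mul, abs_of_nonneg (ha0 i)]
              by_cases hi : i ∈ G.neighborFinset j' ∩ G.neighborFinset j
              · rw [if_pos hi]
                rw [mem_inter, SimpleGraph.mem_neighborFinset, SimpleGraph.mem_neighborFinset] at hi
                have b1 := (h1 i j hi.2.symm).2
                have b2 := (h1 i j' hi.1.symm).2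
                have b3 : |B i j| * |B i j'| ≤ β ^ 2 := by
                  rw [pow_two]
                  exact mul_le_mul b1 b2 (abs_nonneg _) (by linarith)
                have := mul_le_mul_of_nonneg_left b3 (ha0 i)
                linarith
              · rw [if_neg hi]
                rw [mem_inter, SimpleGraph.mem_neighborFinset, SimpleGraph.mem_neighborFinset] at hi
                have : B i j = 0 ∨ B i j' = 0 := by
                  by_contra hcon2
                  push Not at hcon2
                  apply hi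
                  refine ⟨?_, ?_⟩
                  · by_contra hc
                    exact hcon2.2 (h0 i j' fun hh => hc hh.symm)
                  · by_contra hc
                    exact hcon2.1 (h0 i j fun hh => hc hh.symm)
                rcases this with h' | h' <;> rw [h'] <;> simp
          _ = β ^ 2 * g G a j' j := by
              rw [← sum_filter, g, mul_sum]
              apply sum_congr _ (fun _ _ => rfl)
              ext i
              simp
      have e3 : (∑ i, a i * (B i j * B i j')) ^ 2 ≤ (β ^ 2 * g G a j' j) ^ 2 := by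
        rw [← sq_abs]
        exact pow_le_pow_left₀ (abs_nonneg _) e2 2
      rw [e1, show β ^ 4 * (g G a j' j ^ 2 / (G.degree j' : ℝ)) = β ^ 4 * g G a j' j ^ 2 / (G.degree j' : ℝ) from
        (mul_div_assoc _ _ _).symm, le_div_iff₀ (hd j')]
      calc (G.degree j : ℝ) * (q j * q j' * ∑ i, a i * (B i j * B i j')) ^ 2 * G.degree j'
          = (q j ^ 2 * G.degree j) * (q j' ^ 2 * G.degree j') * (∑ i, a i * (B i j * B i j')) ^ 2 := by ring
        _ = (∑ i, a i * (B i j * B i j')) ^ 2 := by rw [hqq, hqq, one_mul, one_mul]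
        _ ≤ (β ^ 2 * g G a j' j) ^ 2 := e3
        _ = β ^ 4 * g G a j' j ^ 2 := by ring
    have c5 : ∑ j, (G.degree j : ℝ) * ∑ j', (Mᵀ * M) j j' ^ 2 ≤ β ^ 4 * ((4 * μ * K + s) * (K * m)) := by
      calc ∑ j, (G.degree j : ℝ) * ∑ j', (Mᵀ * M) j j' ^ 2
          ≤ ∑ j, ∑ j', β ^ 4 * (g G a j' j ^ 2 / G.degree j') := by
            apply sum_le_sum
            intro j _
            rw [mul_sum]
            exact sum_le_sum fun j' _ => c4 j j'
        _ = β ^ 4 * ∑ l, ∑ j, g G a l j ^ 2 / G.degree l := by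
            rw [sum_comm, mul_sum]
            apply sum_congr rfl
            intro l _
            rw [mul_sum]
        _ ≤ _ := mul_le_mul_of_nonneg_left hQ' (by positivity)
    rw [c1]
    calc K * m / 2 = K * m - τ * (β ^ 4 * ((4 * μ * K + s) * (K * m))) := by
          rw [hτdef]
          field_simp
          ring
      _ ≤ ∑ j, ∑ i, a i * B i j ^ 2 - τ * ∑ j, (G.degree j : ℝ) * ∑ j', (Mᵀ * M) j j' ^ 2 := by
          have := mul_le_mul_of_nonneg_left c5 hτ.le
          linarith
      _ = ∑ j, (G.degree j : ℝ) * ((Mᵀ * M) j j - τ * ∑ j', (Mᵀ * M) j j' ^ 2) := by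
          rw [mul_sum, ← sum_sub_distrib]
          apply sum_congr rfl
          intro j _
          rw [mul_sub, c2]
          ring
      _ ≤ ∑ j, (G.degree j : ℝ) * (Mᵀ * (M * R)) j j :=
          sum_le_sum fun j _ => mul_le_mul_of_nonneg_left (hR2 j) (hd j).le
  -- conclusion
  have hKm : 0 < K * m := by positivity
  have fin1 : (K * m / 2) ^ 2 ≤ 1 / (4 * τ) * (w * m) * (w * (2 * K * m)) :=
    (pow_le_pow_left₀ (by positivity) low 2).trans up
  have fin2 : 1 / (4 * τ) = β ^ 4 * (4 * μ * K + s) / 2 := by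
    rw [hτdef]
    field_simp
    ring
  rw [fin2] at fin1
  have fin3 : (K * m) * (K * m) ≤ (K * m) * (4 * W * (4 * μ * K + s) * m) := by
    rw [hW]
    nlinarith
  have fin4 : K * m ≤ 4 * W * (4 * μ * K + s) * m := le_of_mul_le_mul_left fin3 hKm
  have fin5 : K ≤ 4 * W * (4 * μ * K + s) := le_of_mul_le_mul_right fin4 hm0
  have fin6 : 4 * W * (4 * μ * K + s) = 16 / 20 * K + 4 * W * s := by
    rw [hμdef]
    field_simp
    ring
  rw [fin6] at fin5
  have fin7 : K ≤ 20 * W * s := by linarith
  have fin8 : 20 * W * s ≤ (20 * W) ^ (s - 1) * (s : ℝ) ^ s * t := by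
    have g1 : 20 * W ≤ (20 * W) ^ (s - 1) := by
      calc 20 * W = (20 * W) ^ 1 := (pow_one _).symm
        _ ≤ (20 * W) ^ (s - 1) := pow_le_pow_right₀ (by linarith) (by omega)
    have g2 : (s : ℝ) ≤ (s : ℝ) ^ s := by
      calc (s : ℝ) = (s : ℝ) ^ 1 := (pow_one _).symm
        _ ≤ (s : ℝ) ^ s := pow_le_pow_right₀ hs1 (by omega)
    calc 20 * W * s ≤ (20 * W) ^ (s - 1) * (s : ℝ) ^ s :=
          mul_le_mul g1 g2 (by linarith) (by positivity)
      _ ≤ (20 * W) ^ (s - 1) * (s : ℝ) ^ s * t := by
          apply le_mul_of_one_le_right (by positivity) ht1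
  linarith

end core

section all

/-- Twice the number of edges inside `U`. -/
def inner2 {V : Type*} [DecidableEq V] (G : SimpleGraph V) [DecidableRel G.Adj] (U : Finset V) : ℕ :=
  ((U ×ˢ U).filter (fun p => G.Adj p.1 p.2)).card

/-- The number of neighbours in `U`. -/
def degIn {V : Type*} [DecidableEq V] (G : SimpleGraph V) [DecidableRel G.Adj] (U : Finset V) (i : V) : ℕ :=
  (U.filter (fun j => G.Adj i j)).card

variable {V : Type*} [DecidableEq V] (G : SimpleGraph V) [DecidableRel G.Adj]

theorem inner2_eq (U : Finset V) : inner2 G U = ∑ i ∈ U, degIn G U i := by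
  unfold inner2 degIn
  rw [card_filter, sum_product]
  apply sum_congr rfl
  intro i _
  rw [card_filter]

theorem inner2_erase (U : Finset V) (i : V) (hi : i ∈ U) :
    inner2 G U = inner2 G (U.erase i) + 2 * degIn G U i := by
  have e1 : ∀ k ∈ U.erase i, degIn G U k = degIn G (U.erase i) k + if G.Adj i k then 1 else 0 := by
    intro k _
    unfold degIn
    conv_lhs => rw [← insert_erase hi]
    rw [filter_insert]
    by_cases h : G.Adj k i
    · rw [if_pos h, if_pos h.symm, card_insert_of_notMem]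
      simp
    · rw [if_neg h, if_neg (fun h' => h h'.symm), add_zero]
  rw [inner2_eq, inner2_eq, ← add_sum_erase U _ hi, sum_congr rfl e1, sum_add_distrib]
  have e2 : ∑ k ∈ U.erase i, (if G.Adj i k then 1 else 0) = degIn G U i := by
    unfold degIn
    rw [card_filter, ← add_sum_erase U _ hi]
    simp
  rw [e2]
  ring

/-- There is a nonempty set with maximal density. -/
theorem exists_dense [Fintype V] [Nonempty V] : ∃ U : Finset V, U.Nonempty ∧
    ∃ K : ℝ, (∑ i ∈ U, (degIn G U i : ℝ)) = 2 * K * U.card ∧ (∀ i ∈ U, K ≤ degIn G U i) ∧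
      (inner2 G univ : ℝ) ≤ 2 * K * Fintype.card V := by
  classical
  let f : Finset V → ℝ := fun U => (inner2 G U : ℝ) / U.card
  obtain ⟨U, hU, hmax⟩ := exists_max_image ((univ : Finset (Finset V)).filter (fun U => U.Nonempty)) f
    ⟨univ, by simp [univ_nonempty]⟩
  rw [mem_filter] at hU
  have hU2 : (0 : ℝ) < U.card := by exact_mod_cast card_pos.2 hU.2
  refine ⟨U, hU.2, f U / 2, ?_, ?_, ?_⟩
  · have : ((∑ i ∈ U, degIn G U i : ℕ) : ℝ) = inner2 G U := by rw [inner2_eq]
    push_cast at this
    rw [this]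
    show (inner2 G U : ℝ) = 2 * ((inner2 G U : ℝ) / U.card / 2) * U.card
    field_simp
  · intro i hi
    have h1 := inner2_erase G U i hi
    rcases (U.erase i).eq_empty_or_nonempty with he | he
    · have h2 : inner2 G U = 2 * degIn G U i := by
        rw [h1, he]
        simp [inner2]
      have h3 : U.card = 1 := by
        have := card_erase_of_mem hi
        rw [he, card_empty] at this
        have := card_pos.2 hU.2
        omega
      show (inner2 G U : ℝ) / U.card / 2 ≤ _
      rw [h3, h2]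
      push_cast
      linarith
    · have h2 := hmax (U.erase i) (by simp [he])
      have hc : (((U.erase i).card : ℕ) : ℝ) = U.card - 1 := by
        rw [card_erase_of_mem hi, Nat.cast_sub (card_pos.2 hU.2)]
        simp
      have hc0 : (0 : ℝ) < ((U.erase i).card : ℝ) := by exact_mod_cast card_pos.2 he
      have h3 : (inner2 G (U.erase i) : ℝ) ≤ f U * (U.card - 1) := by
        have h2' : (inner2 G (U.erase i) : ℝ) / ((U.erase i).card : ℝ) ≤ f U := h2
        rw [div_le_iff₀ hc0, hc] at h2'
        exact h2'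
      have h4 : (inner2 G U : ℝ) = f U * U.card := by
        show (inner2 G U : ℝ) = (inner2 G U : ℝ) / U.card * U.card
        field_simp
      have h5 : (inner2 G U : ℝ) = inner2 G (U.erase i) + 2 * degIn G U i := by exact_mod_cast h1
      linarith
  · have h2 := hmax univ (by simp [univ_nonempty])
    have h3 : (inner2 G univ : ℝ) / ((univ : Finset V).card : ℝ) ≤ f U := h2
    have hc0 : (0 : ℝ) < ((univ : Finset V).card : ℝ) := by
      exact_mod_cast card_pos.2 (univ_nonempty (α := V))
    rw [div_le_iff₀ hc0, card_univ] at h3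
    linarith

/-- The general theorem. -/
theorem edges_le [Fintype V] (s t : ℕ) (hs : 2 ≤ s) (ht : 1 ≤ t)
    (h : ∀ S : Finset V, S.card = s → (univ.filter (fun j => ∀ i ∈ S, G.Adj i j)).card ≤ t)
    {L : Type*} [Fintype L] (u v : V → L → ℝ) (β w : ℝ)
    (h0 : ∀ i j, ¬ G.Adj i j → ∑ l, u i l * v j l = 0)
    (h1 : ∀ i j, G.Adj i j → 1 ≤ |∑ l, u i l * v j l| ∧ |∑ l, u i l * v j l| ≤ β)
    (hu : ∀ i, ∑ l, u i l ^ 2 ≤ w) (hv : ∀ j, ∑ l, v j l ^ 2 ≤ w) :
    (G.edgeFinset.card : ℝ) ≤ (20 * (w ^ 2 * β ^ 4)) ^ (s - 1) * (s : ℝ) ^ s * t * Fintype.card V := by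
  classical
  have hedge : (2 * G.edgeFinset.card : ℕ) = inner2 G univ := by
    rw [← G.sum_degrees_eq_twice_card_edges, inner2_eq]
    apply sum_congr rfl
    intro i _
    unfold degIn
    rw [← SimpleGraph.card_neighborFinset_eq_degree]
    congr 1
    ext j
    simp
  rcases isEmpty_or_nonempty V with hV | hV
  · have : inner2 G univ = 0 := by
      unfold inner2
      simp
    have h2 : G.edgeFinset.card = 0 := by omega
    rw [h2]
    simp
  obtain ⟨U, hU, K, hK1, hK2, hK3⟩ := exists_dense G
  have hedge' : (2 : ℝ) * G.edgeFinset.card = inner2 G univ := by exact_mod_cast hedge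
  have hC0 : 0 ≤ (20 * (w ^ 2 * β ^ 4)) ^ (s - 1) * (s : ℝ) ^ s * t := by positivity
  have hcard : (0 : ℝ) ≤ Fintype.card V := Nat.cast_nonneg _
  suffices hKK : K ≤ (20 * (w ^ 2 * β ^ 4)) ^ (s - 1) * (s : ℝ) ^ s * t by
    have := mul_le_mul_of_nonneg_right hKK hcard
    linarith
  rcases le_or_gt K 0 with hK0 | hK0
  · exact hK0.trans hC0
  have : Nonempty (U : Finset V) := ⟨⟨hU.choose, hU.choose_spec⟩⟩
  set H : SimpleGraph U := G.comap (fun i : U => (i : V)) with hH
  have hdegH : ∀ i : U, H.degree i = degIn G U i := by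
    intro i
    rw [← SimpleGraph.card_neighborFinset_eq_degree]
    unfold degIn
    refine card_bij (fun (j : U) _ => (j : V)) ?_ ?_ ?_
    · intro j hj
      rw [SimpleGraph.mem_neighborFinset, hH, SimpleGraph.comap_adj] at hj
      exact mem_filter.2 ⟨j.2, hj⟩
    · intro j _ j' _ hjj
      exact Subtype.ext hjj
    · intro j hj
      rw [mem_filter] at hj
      refine ⟨⟨j, hj.1⟩, ?_, rfl⟩
      rw [SimpleGraph.mem_neighborFinset, hH, SimpleGraph.comap_adj]
      exact hj.2
  refine core H s t hs ht ?_ K hK0 ?_ ?_ (fun i => u i) (fun j => v j) β w ?_ ?_ (fun i => hu i) (fun j => hv j)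
  · intro S hS
    have h2 := h (S.map (Function.Embedding.subtype _)) (by rw [card_map]; exact hS)
    refine le_trans ?_ h2
    rw [← card_map (Function.Embedding.subtype fun x => x ∈ U)]
    apply card_le_card
    intro j hj
    rw [mem_map] at hj
    obtain ⟨j', hj', rfl⟩ := hj
    rw [mem_filter] at hj' ⊢
    refine ⟨mem_univ _, ?_⟩
    intro i hi
    rw [mem_map] at hi
    obtain ⟨i', hi', rfl⟩ := hi
    exact hj'.2 i' hi'
  · intro i
    rw [hdegH]
    exact hK2 i i.2
  · have e : ∑ i : U, (H.degree i : ℝ) = ∑ i ∈ U, (degIn G U i : ℝ) := by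
      rw [← sum_coe_sort U (fun i => (degIn G U i : ℝ))]
      apply sum_congr rfl
      intro i _
      rw [hdegH]
    rw [e, hK1, Fintype.card_coe]
  · intro i j hij
    exact h0 i j hij
  · intro i j hij
    exact h1 i j hij

end all

end Pool.Agent.TH528.GN
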