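import Mathlib

/-!
# A test matrix with small operator norm

For a real matrix `M` and `τ > 0` the matrix `M (1 + τ Mᵀ M)⁻¹` has operator norm at most `1 / (2 √τ)`, and the
diagonal of `Mᵀ M (1 + τ Mᵀ M)⁻¹` is at least that of `Mᵀ M - τ (Mᵀ M)²`.
-/

set_option autoImplicit false

namespace Pool.Agent.TH528.GN

open Matrix Finset

variable {I J : Type*} [Fintype I] [Fintype J] [DecidableEq J]

/-- The resolvent `R = (1 + τ Mᵀ M)⁻¹`. -/
theorem exists_resolvent (M : Matrix I J ℝ) (τ : ℝ) (hτ : 0 < τ) :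
    ∃ R : Matrix J J ℝ,
      (∀ y : J → ℝ, 4 * τ * ∑ i, ((M * R) *ᵥ y) i ^ 2 ≤ ∑ j, y j ^ 2) ∧
      (∀ j, (Mᵀ * M) j j - τ * ∑ j', (Mᵀ * M) j j' ^ 2 ≤ (Mᵀ * (M * R)) j j) := by
  classical
  set P : Matrix J J ℝ := Mᵀ * M with hP
  have hPT : Pᵀ = P := by simp [hP, transpose_mul]
  set N : Matrix J J ℝ := 1 + τ • P with hN
  have hNpd : N.PosDef := by
    refine Matrix.PosDef.add_posSemidef Matrix.PosDef.one ?_
    have h : P.PosSemidef := by
      have := Matrix.posSemidef_conjTranspose_mul_self M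
      simpa [hP, conjTranspose_eq_transpose_of_trivial] using this
    exact h.smul hτ.le
  have hu : IsUnit N := hNpd.isUnit
  obtain ⟨R, hRN, hNR⟩ : ∃ R, R * N = 1 ∧ N * R = 1 :=
    ⟨N⁻¹, Matrix.nonsing_inv_mul _ ((Matrix.isUnit_iff_isUnit_det _).1 hu),
      Matrix.mul_nonsing_inv _ ((Matrix.isUnit_iff_isUnit_det _).1 hu)⟩
  have hNT : Nᵀ = N := by simp [hN, hPT]
  have hRT : Rᵀ = R := by
    have h1 : Rᵀ * N = 1 := by
      have := congrArg transpose hNR
      rw [transpose_mul, hNT, transpose_one] at this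
      exact this
    calc Rᵀ = Rᵀ * (N * R) := by rw [hNR, mul_one]
      _ = (Rᵀ * N) * R := by rw [mul_assoc]
      _ = R := by rw [h1, one_mul]
  have e1 : R + τ • (R * P) = 1 := by
    rw [← hRN, hN, mul_add, mul_one, mul_smul_comm]
  have e2 : R + τ • (P * R) = 1 := by
    rw [← hNR, hN, add_mul, one_mul, smul_mul_assoc]
  have hcomm : P * R = R * P := by
    have h1 : τ • (P * R) = τ • (R * P) := add_left_cancel (e2.trans e1.symm)
    have h2 := congrArg (fun X : Matrix J J ℝ => τ⁻¹ • X) h1
    simpa [smul_smul, inv_mul_cancel₀ hτ.ne'] using h2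
  refine ⟨R, ?_, ?_⟩
  · intro y
    set z := R *ᵥ y with hz
    have hy : y = z + τ • (P *ᵥ z) := by
      have h1 : N *ᵥ z = y := by rw [hz, mulVec_mulVec, hNR, one_mulVec]
      rw [← h1, hN, add_mulVec, one_mulVec, smul_mulVec]
    have hMz : (M * R) *ᵥ y = M *ᵥ z := by rw [hz, mulVec_mulVec]
    rw [hMz]
    have key : ∑ i, (M *ᵥ z) i ^ 2 = ∑ j, z j * (P *ᵥ z) j := by
      have h1 : (M *ᵥ z) ⬝ᵥ (M *ᵥ z) = z ⬝ᵥ (P *ᵥ z) := by
        rw [hP, ← mulVec_mulVec, dotProduct_mulVec z, vecMul_transpose]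
      simpa [dotProduct, pow_two] using h1
    rw [key]
    have h2 : ∑ j, y j ^ 2 - 4 * τ * ∑ j, z j * (P *ᵥ z) j = ∑ j, (z j - τ * (P *ᵥ z) j) ^ 2 := by
      rw [mul_sum, ← sum_sub_distrib]
      apply sum_congr rfl
      intro j _
      have hj : y j = z j + τ * (P *ᵥ z) j := by
        conv_lhs => rw [hy]
        simp
      rw [hj]
      ring
    have h3 : 0 ≤ ∑ j, (z j - τ * (P *ᵥ z) j) ^ 2 := sum_nonneg fun j _ => sq_nonneg _
    linarith
  · intro j
    have hPP : (P * P) j j = ∑ j', P j j' ^ 2 := by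
      rw [mul_apply]
      apply sum_congr rfl
      intro j' _
      have : P j' j = P j j' := by
        conv_lhs => rw [← hPT]
        rfl
      rw [this, pow_two]
    have h1 : Mᵀ * (M * R) = P * R := by rw [hP, Matrix.mul_assoc]
    rw [h1, ← hPP]
    -- `P R = P - τ P P + τ² P (P R) P`
    have e3 : R = 1 - τ • (P * R) := by rw [← e2]; simp
    have a1 : P * R = P - τ • (P * (P * R)) := by
      have : P * R = P * (1 - τ • (P * R)) := by rw [← e3]
      rw [mul_sub, mul_one, mul_smul_comm] at this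
      exact this
    have a3 : P * (P * (P * R)) = P * (P * R) * P := by
      have : P * (P * R) = P * R * P := by
        calc P * (P * R) = P * (R * P) := by rw [hcomm]
          _ = P * R * P := by rw [mul_assoc]
      calc P * (P * (P * R)) = P * (P * R * P) := by rw [← this]
        _ = P * (P * R) * P := by rw [← mul_assoc]
    have a2 : P * (P * R) = P * P - τ • (P * (P * R) * P) := by
      have : P * (P * R) = P * (P - τ • (P * (P * R))) := by rw [← a1]
      rw [mul_sub, mul_smul_comm, a3] at this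
      exact this
    have b1 : P * R = R * P * R + τ • (R * P * P * R) := by
      calc P * R = (R + τ • (R * P)) * (P * R) := by rw [e1, one_mul]
        _ = R * P * R + τ • (R * P * P * R) := by
            rw [add_mul, smul_mul_assoc]
            simp only [mul_assoc]
    have e5 : P * (P * R) * P = (M * R * P)ᵀ * (M * R * P) + τ • ((P * R * P)ᵀ * (P * R * P)) := by
      have c1 : (M * R * P)ᵀ * (M * R * P) = P * (R * P * R) * P := by
        have t1 : (M * R * P)ᵀ = P * (R * Mᵀ) := by
          rw [transpose_mul (M * R) P, transpose_mul M R, hPT, hRT]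
        rw [t1]
        calc P * (R * Mᵀ) * (M * R * P) = P * (R * (Mᵀ * M) * R) * P := by
              simp only [Matrix.mul_assoc]
          _ = P * (R * P * R) * P := by rw [← hP]
      have c2 : (P * R * P)ᵀ * (P * R * P) = P * (R * P * P * R) * P := by
        have t1 : (P * R * P)ᵀ = P * (R * P) := by
          rw [transpose_mul (P * R) P, transpose_mul P R, hPT, hRT]
        rw [t1]
        simp only [mul_assoc]
      rw [c1, c2]
      have : P * (P * R) * P = P * (R * P * R + τ • (R * P * P * R)) * P := by rw [← b1]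
      rw [this, mul_add, add_mul, mul_smul_comm, smul_mul_assoc]
    have h5 : 0 ≤ (P * (P * R) * P) j j := by
      have d1 : 0 ≤ ((M * R * P)ᵀ * (M * R * P)) j j := by
        rw [Matrix.mul_apply]
        exact sum_nonneg fun i _ => mul_self_nonneg _
      have d2 : 0 ≤ ((P * R * P)ᵀ * (P * R * P)) j j := by
        rw [Matrix.mul_apply]
        exact sum_nonneg fun i _ => mul_self_nonneg _
      rw [e5, Matrix.add_apply, Matrix.smul_apply, smul_eq_mul]
      exact add_nonneg d1 (mul_nonneg hτ.le d2)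
    have h7 : (P * (P * R)) j j ≤ (P * P) j j := by
      rw [a2, Matrix.sub_apply, Matrix.smul_apply, smul_eq_mul]
      have := mul_nonneg hτ.le h5
      linarith
    have h8 : (P * R) j j = P j j - τ * (P * (P * R)) j j := by
      conv_lhs => rw [a1]
      rw [Matrix.sub_apply, Matrix.smul_apply, smul_eq_mul]
    rw [h8]
    have := mul_le_mul_of_nonneg_left h7 hτ.le
    linarith

end Pool.Agent.TH528.GN
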